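import Mathlib

/-!
# Associative varieties, Grassmann envelopes, free superalgebras and basic superranks

Definitions used for problem `MP_1a662b_al`.  Everything is over a field `F`; algebras are
associative and need not have a unit, and their carriers live in the universe of `F`.
-/

open scoped TensorProduct

universe u

namespace Pool.Agent.Helper29

/-- The product `a 0 * a 1 * ⋯ * a n` of a nonempty finite sequence. -/
def nprod {A : Type u} [Mul A] : {n : ℕ} → (Fin (n + 1) → A) → A
  | 0, a => a 0
  | (_ + 1), a => nprod (fun i => a i.castSucc) * a (Fin.last _)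

/-- An associative (not necessarily unital) algebra over `F`. -/
structure AssocAlg (F : Type u) [Field F] where
  /-- the underlying type -/
  carrier : Type u
  [ring : NonUnitalRing carrier]
  [module : Module F carrier]
  smul_mul : ∀ (c : F) (a b : carrier), (c • a) * b = c • (a * b)
  mul_smul : ∀ (c : F) (a b : carrier), a * (c • b) = c • (a * b)

attribute [instance] AssocAlg.ring AssocAlg.module

instance AssocAlg.tower {F : Type u} [Field F] (A : AssocAlg F) :
    IsScalarTower F A.carrier A.carrier := ⟨A.smul_mul⟩

instance AssocAlg.comm {F : Type u} [Field F] (A : AssocAlg F) :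
    SMulCommClass F A.carrier A.carrier := ⟨fun c a b => (A.mul_smul c a b).symm⟩

/-- A multilinear polynomial `∑ σ, coeff σ • x_{σ 0} x_{σ 1} ⋯ x_{σ n}` of degree `n + 1`
in noncommuting variables `x_0, …, x_n`. -/
structure MLPoly (F : Type u) [Field F] where
  /-- the degree is `n + 1` -/
  n : ℕ
  /-- the coefficients -/
  coeff : Equiv.Perm (Fin (n + 1)) → F

/-- The algebra `A` satisfies the multilinear identity `f = 0`. -/
def AssocAlg.Satisfies {F : Type u} [Field F] (A : AssocAlg F) (f : MLPoly F) : Prop :=
  ∀ a : Fin (f.n + 1) → A.carrier, ∑ σ, f.coeff σ • nprod (fun i => a (σ i)) = 0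

/-- The variety generated by a class `K` of algebras: all algebras that satisfy the
(multilinear) identities of `K`. -/
def var {F : Type u} [Field F] (K : Set (AssocAlg F)) : Set (AssocAlg F) :=
  {A | ∀ f : MLPoly F, (∀ B ∈ K, B.Satisfies f) → A.Satisfies f}

/-- A superalgebra: an algebra with a decomposition `A = A₀ ⊕ A₁`, `Aᵢ Aⱼ ⊆ Aᵢ₊ⱼ`. -/
structure SuperAlg (F : Type u) [Field F] extends AssocAlg F where
  /-- the homogeneous components -/
  part : ZMod 2 → Submodule F carrier
  isCompl : IsCompl (part 0) (part 1)
  mul_mem : ∀ {i j : ZMod 2} {a b : carrier}, a ∈ part i → b ∈ part j → a * b ∈ part (i + j)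

/-- The Grassmann (exterior) algebra on countably many generators. -/
abbrev Grassmann (F : Type u) [Field F] : Type u := ExteriorAlgebra F (ℕ →₀ F)

/-- The components `G₀`, `G₁` of the Grassmann algebra: the span of the words of even (odd)
length in the generators. -/
noncomputable def gpart (F : Type u) [Field F] (i : ZMod 2) : Submodule F (Grassmann F) :=
  CliffordAlgebra.evenOdd (0 : QuadraticForm F (ℕ →₀ F)) i

section envelope

variable {F : Type u} [Field F]

/-- The tensor product algebra `G ⊗ A`. -/
noncomputable def AssocAlg.gtensor (A : AssocAlg F) : AssocAlg F where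
  carrier := Grassmann F ⊗[F] A.carrier
  smul_mul := fun c a b => smul_mul_assoc c a b
  mul_smul := fun c a b => mul_smul_comm c a b

/-- The element `g ⊗ a` of `G ⊗ A`. -/
noncomputable def AssocAlg.gtmul (A : AssocAlg F) (g : Grassmann F) (a : A.carrier) :
    A.gtensor.carrier := g ⊗ₜ[F] a

/-- The homogeneous tensors `g ⊗ a` with `g ∈ Gᵢ` and `a ∈ Aᵢ` for the same `i`. -/
def SuperAlg.homTensors (A : SuperAlg F) : Set A.gtensor.carrier :=
  {t | ∃ i, ∃ g ∈ gpart F i, ∃ a ∈ A.part i, t = A.gtmul g a}

/-- The underlying type of the subalgebra of `B` generated by a set. -/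
def GenAlg (B : AssocAlg F) (s : Set B.carrier) : Type u := NonUnitalAlgebra.adjoin F s

noncomputable instance GenAlg.ring (B : AssocAlg F) (s : Set B.carrier) :
    NonUnitalRing (GenAlg B s) :=
  NonUnitalSubalgebra.toNonUnitalRing (R := F) (NonUnitalAlgebra.adjoin F s)

noncomputable instance GenAlg.module (B : AssocAlg F) (s : Set B.carrier) :
    Module F (GenAlg B s) :=
  NonUnitalSubalgebra.instModule (R := F) (S := NonUnitalAlgebra.adjoin F s)

/-- The subalgebra of `B` generated by a set. -/
noncomputable def AssocAlg.gen (B : AssocAlg F) (s : Set B.carrier) : AssocAlg F where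
  carrier := GenAlg B s
  smul_mul := fun c a b => Subtype.ext (B.smul_mul c a.1 b.1)
  mul_smul := fun c a b => Subtype.ext (B.mul_smul c a.1 b.1)

/-- The Grassmann envelope `G(A) = G₀ ⊗ A₀ + G₁ ⊗ A₁`: the subalgebra of `G ⊗ A` generated by
the tensors `g ⊗ a` with `g` and `a` of the same parity. -/
noncomputable def SuperAlg.envelope (A : SuperAlg F) : AssocAlg F :=
  A.gtensor.gen A.homTensors

end envelope

section free

variable {F : Type u} [Field F]

/-- The parity of a letter: the first `r` letters are even, the last `s` letters are odd. -/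
def letterParity {r s : ℕ} : Fin r ⊕ Fin s → ZMod 2
  | .inl _ => 0
  | .inr _ => 1

/-- A homomorphism of algebras: a linear multiplicative map. -/
structure IsHom {A B : SuperAlg F} (φ : A.carrier → B.carrier) : Prop where
  add : ∀ x y, φ (x + y) = φ x + φ y
  smul : ∀ (c : F) (x), φ (c • x) = c • φ x
  mul : ∀ x y, φ (x * y) = φ x * φ y
  part : ∀ i, ∀ x ∈ A.part i, φ x ∈ B.part i

/-- `D` is the free `V`-superalgebra on the elements `x t`, the first `r` of which are even and
the last `s` odd. -/
structure IsFreeSuper (V : Set (AssocAlg F)) {r s : ℕ} (D : SuperAlg F)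
    (x : Fin r ⊕ Fin s → D.carrier) : Prop where
  mem : D.envelope ∈ V
  hom : ∀ t, x t ∈ D.part (letterParity t)
  lift : ∀ B : SuperAlg F, B.envelope ∈ V → ∀ v : Fin r ⊕ Fin s → B.carrier,
    (∀ t, v t ∈ B.part (letterParity t)) →
    ∃! φ : D.carrier → B.carrier, IsHom φ ∧ ∀ t, φ (x t) = v t

end free

section spectrum

variable {F : Type u} [Field F]

/-- The variety `V` is generated by the Grassmann envelope of its free superalgebra on `r` even
and `s` odd generators. -/
def GeneratedBy (V : Set (AssocAlg F)) (r s : ℕ) : Prop :=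
  ∃ (D : SuperAlg F) (x : Fin r ⊕ Fin s → D.carrier), IsFreeSuper V D x ∧ V = var {D.envelope}

/-- `(r, s)` is a basic superrank of `V`. -/
def IsBasicSuperrank (V : Set (AssocAlg F)) (r s : ℕ) : Prop :=
  GeneratedBy V r s ∧
    ∀ r' s' : ℕ, (r', s') ≠ (r, s) → r' ≤ r → s' ≤ s → ¬ GeneratedBy V r' s'

/-- The set of basic superranks of `V`. -/
def basicSpectrum (V : Set (AssocAlg F)) : Set (ℕ × ℕ) :=
  {p | IsBasicSuperrank V p.1 p.2}

end spectrum

section restrict

variable (F : Type u) [Field F] {L : Type u} [Field L] [Algebra F L]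

/-- An algebra over `L` regarded as an algebra over the subfield `F`. -/
def AssocAlg.restrict (A : AssocAlg L) : AssocAlg F :=
  letI : Module F A.carrier := Module.compHom A.carrier (algebraMap F L)
  { carrier := A.carrier
    smul_mul := fun c a b => A.smul_mul (algebraMap F L c) a b
    mul_smul := fun c a b => A.mul_smul (algebraMap F L c) a b }

/-- The components of a superalgebra over `L`, as subspaces over `F`. -/
def SuperAlg.restrictPart (A : SuperAlg L) (i : ZMod 2) :
    Submodule F (AssocAlg.restrict F A.toAssocAlg).carrier where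
  carrier := {a : A.carrier | a ∈ A.part i}
  add_mem' := fun ha hb => (A.part i).add_mem ha hb
  zero_mem' := (A.part i).zero_mem
  smul_mem' := fun c _ ha => (A.part i).smul_mem (algebraMap F L c) ha

theorem SuperAlg.restrictPart_isCompl (A : SuperAlg L) :
    IsCompl (A.restrictPart F 0) (A.restrictPart F 1) := by
  refine IsCompl.of_le ?_ ?_
  · rintro x ⟨h0, h1⟩
    exact Submodule.disjoint_def.1 A.isCompl.disjoint x h0 h1
  · intro (x : A.carrier) _
    have hx : x ∈ A.part 0 ⊔ A.part 1 := by rw [A.isCompl.sup_eq_top]; trivial
    obtain ⟨a, ha, b, hb, hab⟩ := Submodule.mem_sup.1 hx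
    have ha' : a ∈ A.restrictPart F 0 := ha
    have hb' : b ∈ A.restrictPart F 1 := hb
    rw [← hab]
    exact Submodule.add_mem_sup ha' hb'

/-- A superalgebra over `L` regarded as a superalgebra over the subfield `F`. -/
def SuperAlg.restrict (A : SuperAlg L) : SuperAlg F where
  toAssocAlg := AssocAlg.restrict F A.toAssocAlg
  part := A.restrictPart F
  isCompl := A.restrictPart_isCompl F
  mul_mem := A.mul_mem

end restrict

/-- `V` is the variety generated by the Grassmann envelope of a superalgebra that is
finite-dimensional over some field extension `L` of `F` (`L = F` is allowed). -/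
def IsFinDimEnvelopeVariety {F : Type u} [Field F] (V : Set (AssocAlg F)) : Prop :=
  ∃ (L : Type u) (_ : Field L) (_ : Algebra F L) (A : SuperAlg L),
    Module.Finite L A.carrier ∧ V = var {(A.restrict F).envelope}

end Pool.Agent.Helper29
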