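import Pool.Agent.Helper29.SuperBaseChange

/-!
# The variety of all associative algebras
-/

open scoped TensorProduct

universe u v

namespace Pool.Agent.Helper29

section words

/-- The word `a b^i`. -/
def wd (i : ℕ) : FreeMonoid (Fin 2) := FreeMonoid.ofList (0 :: List.replicate i 1)

theorem replicate_append_inj : ∀ (p q : ℕ) (R R' : List (Fin 2)),
    (∀ x ∈ R.head?, x = 0) → (∀ x ∈ R'.head?, x = 0) →
    List.replicate p 1 ++ R = List.replicate q 1 ++ R' → p = q ∧ R = R'
  | 0, 0, R, R', _, _, h => ⟨rfl, by simpa using h⟩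
  | 0, q + 1, R, R', hR, _, h => by
    exfalso
    have h1 : R = 1 :: (List.replicate q 1 ++ R') := by
      simpa [List.replicate_succ] using h
    have := hR 1 (by rw [h1]; rfl)
    exact absurd this (by decide)
  | p + 1, 0, R, R', _, hR', h => by
    exfalso
    have h1 : R' = 1 :: (List.replicate p 1 ++ R) := by
      simpa [List.replicate_succ] using h.symm
    have := hR' 1 (by rw [h1]; rfl)
    exact absurd this (by decide)
  | p + 1, q + 1, R, R', hR, hR', h => by
    have h1 : List.replicate p 1 ++ R = List.replicate q 1 ++ R' := by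
      simpa [List.replicate_succ] using h
    obtain ⟨h2, h3⟩ := replicate_append_inj p q R R' hR hR' h1
    exact ⟨by rw [h2], h3⟩

theorem toList_wd_prod_cons (p : ℕ) (l : List ℕ) :
    FreeMonoid.toList (((p :: l).map wd).prod) =
      0 :: (List.replicate p 1 ++ FreeMonoid.toList ((l.map wd).prod)) := by
  rw [List.map_cons, List.prod_cons, FreeMonoid.toList_mul]
  rfl

theorem head_wd_prod (l : List ℕ) : ∀ x ∈ (FreeMonoid.toList ((l.map wd).prod)).head?, x = 0 := by
  cases l with
  | nil => intro x hx; simp at hx
  | cons p l =>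
    intro x hx
    rw [toList_wd_prod_cons, List.head?_cons, Option.mem_some_iff] at hx
    exact hx.symm

theorem wd_prod_inj : ∀ l l' : List ℕ, (l.map wd).prod = (l'.map wd).prod → l = l'
  | [], [], _ => rfl
  | [], q :: l', h => by
    exfalso
    have h1 := congrArg FreeMonoid.toList h
    rw [toList_wd_prod_cons] at h1
    simp at h1
  | p :: l, [], h => by
    exfalso
    have h1 := congrArg FreeMonoid.toList h
    rw [toList_wd_prod_cons] at h1
    simp at h1
  | p :: l, q :: l', h => by
    have h1 := congrArg FreeMonoid.toList h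
    rw [toList_wd_prod_cons, toList_wd_prod_cons, List.cons_inj_right] at h1
    obtain ⟨h2, h3⟩ := replicate_append_inj p q _ _ (head_wd_prod l) (head_wd_prod l') h1
    have h4 := wd_prod_inj l l' (FreeMonoid.toList.injective h3)
    rw [h2, h4]

end words

variable {F : Type u} [Field F]

/-- An algebra with the trivial grading. -/
def AssocAlg.triv (A : AssocAlg F) : SuperAlg F where
  toAssocAlg := A
  part i := if i = 0 then ⊤ else ⊥
  isCompl := by simpa using isCompl_top_bot
  mul_mem := by
    intro i j a b ha hb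
    rcases zmod2_cases i with rfl | rfl
    · rcases zmod2_cases j with rfl | rfl
      · simp
      · simp at hb; simp [hb]
    · simp at ha; simp [ha]

theorem AssocAlg.mem_triv (A : AssocAlg F) (x : A.carrier) : x ∈ A.triv.part 0 := by
  show x ∈ (if (0 : ZMod 2) = 0 then (⊤ : Submodule F A.carrier) else ⊥)
  rw [if_pos rfl]; trivial

theorem koszul_zero {n : ℕ} (σ : Equiv.Perm (Fin (n + 1))) : koszul F (fun _ => 0) σ = 1 := by
  have h := koszul_spec (F := F) (fun _ => 0) σ (fun _ => 1) (fun _ => one_mem_gpart)
  have h1 : nprod (fun _ : Fin (n + 1) => (1 : Grassmann F)) = 1 := by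
    rw [nprod_eq_list]; simp
  rw [h1] at h
  have h2 : koszul F (fun _ : Fin (n + 1) => 0) σ • (1 : Grassmann F) =
      (1 : F) • (1 : Grassmann F) := by rw [one_smul]; exact h.symm
  exact smul_left_injective F (one_ne_zero (α := Grassmann F)) h2

/-- The monoid algebra of the free monoid on two letters. -/
noncomputable def freeTwo (F : Type u) [Field F] : AssocAlg F where
  carrier := MonoidAlgebra F (FreeMonoid (Fin 2))
  smul_mul := fun c a b => smul_mul_assoc c a b
  mul_smul := fun c a b => mul_smul_comm c a b

theorem coeff_eq_zero_of_SVanish {f : MLPoly F}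
    (h : (freeSuper (Set.univ : Set (AssocAlg F)) 2 0).SVanish f) : ∀ σ, f.coeff σ = 0 := by
  classical
  by_contra hcon
  push Not at hcon
  obtain ⟨τ, hτ⟩ := hcon
  let a : MonoidAlgebra F (FreeMonoid (Fin 2)) := MonoidAlgebra.of F _ (FreeMonoid.of 0)
  let b : MonoidAlgebra F (FreeMonoid (Fin 2)) := MonoidAlgebra.of F _ (FreeMonoid.of 1)
  let x : Fin (f.n + 1) → MonoidAlgebra F (FreeMonoid (Fin 2)) := fun i =>
    MonoidAlgebra.of F _ (wd i)
  let E : Finset (MonoidAlgebra F (FreeMonoid (Fin 2))) := {a, b}
  have hcl : ∀ i : ℕ, MonoidAlgebra.of F _ (wd i) ∈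
      Subsemigroup.closure ((E : Set (MonoidAlgebra F (FreeMonoid (Fin 2)))) ∪
        ((∅ : Finset (MonoidAlgebra F (FreeMonoid (Fin 2)))) : Set _)) := by
    intro i
    induction i with
    | zero => exact Subsemigroup.subset_closure (Or.inl (by simp [E, a]; left; rfl))
    | succ i ih =>
      have h1 : wd (i + 1) = wd i * FreeMonoid.of 1 := by
        apply FreeMonoid.toList.injective
        rw [FreeMonoid.toList_mul]
        show 0 :: List.replicate (i + 1) 1 = (0 :: List.replicate i 1) ++ [1]
        rw [List.cons_append, List.replicate_succ']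
      rw [h1, map_mul]
      exact Subsemigroup.mul_mem _ ih (Subsemigroup.subset_closure (Or.inl (by simp [E, b])))
  have hEc : E.card ≤ 2 := Finset.card_le_two
  refine not_SVanish_free (V := Set.univ) (r := 2) (s := 0) (f := f) (B := (freeTwo F).triv)
    (Set.mem_univ _) E ∅ (fun y _ => AssocAlg.mem_triv _ y)
    (fun y hy => absurd hy (Finset.notMem_empty _)) hEc le_rfl (fun _ => 0) x
    (fun i => AssocAlg.mem_triv _ _) (fun i => hcl i) ?_ h
  intro h0
  have h1 : evalML (MonoidAlgebra F (FreeMonoid (Fin 2))) (skoef f (fun _ => 0)) x = 0 := h0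
  rw [evalML_apply] at h1
  let W : Equiv.Perm (Fin (f.n + 1)) → FreeMonoid (Fin 2) := fun σ =>
    ((List.ofFn (fun i => ((σ i : Fin (f.n + 1)) : ℕ))).map wd).prod
  have hW : ∀ σ : Equiv.Perm (Fin (f.n + 1)), nprod (fun i => x (σ i)) =
      MonoidAlgebra.single (W σ) 1 := by
    intro σ
    rw [nprod_eq_list]
    show _ = MonoidAlgebra.of F _ (W σ)
    simp only [W]
    rw [map_list_prod, List.map_map, List.map_ofFn]
    rfl
  have hWinj : ∀ σ, W σ = W τ → σ = τ := by
    intro σ hσ
    have h2 := wd_prod_inj _ _ hσ
    have h3 := List.ofFn_injective h2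
    ext i
    exact congrFun h3 i
  have h2 := congrArg (fun t => t.coeff (W τ)) h1
  simp only [MonoidAlgebra.coeff_sum, Finsupp.finsetSum_apply] at h2
  rw [Finset.sum_eq_single τ] at h2
  · rw [hW τ, MonoidAlgebra.coeff_smul_apply, MonoidAlgebra.coeff_single,
      Finsupp.single_eq_same, skoef, koszul_zero, mul_one, smul_eq_mul, mul_one] at h2
    exact hτ h2
  · intro σ _ hσ
    rw [hW σ, MonoidAlgebra.coeff_smul_apply, MonoidAlgebra.coeff_single,
      Finsupp.single_eq_of_ne, smul_zero]
    exact fun h' => hσ (hWinj σ h'.symm)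
  · intro h'; exact absurd (Finset.mem_univ τ) h'

theorem generatedBy_univ : GeneratedBy (Set.univ : Set (AssocAlg F)) 2 0 := by
  have hV : IsVariety (Set.univ : Set (AssocAlg F)) := ⟨∅, by simp⟩
  refine ⟨freeSuper Set.univ 2 0, freeGen _ 2 0, isFreeSuper_freeSuper hV 2 0, ?_⟩
  symm
  rw [Set.eq_univ_iff_forall]
  intro C
  rw [mem_var_singleton]
  intro f hf a
  rw [SuperAlg.satisfies_iff] at hf
  refine Finset.sum_eq_zero (fun σ _ => ?_)
  rw [coeff_eq_zero_of_SVanish hf σ, zero_smul]

section restrict

variable {L : Type u} [Field L] [Algebra F L] (A : SuperAlg L)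

instance restrictModule : Module L (A.restrict F).carrier := A.module

instance restrictTower : IsScalarTower F L (A.restrict F).carrier where
  smul_assoc c l a := by
    have h : (c • l) = algebraMap F L c * l := Algebra.smul_def c l
    rw [h]
    exact mul_smul (algebraMap F L c) l (a : A.carrier)

instance restrictTower' : IsScalarTower L (A.restrict F).carrier (A.restrict F).carrier :=
  inferInstanceAs (IsScalarTower L A.carrier A.carrier)

instance restrictComm : SMulCommClass L (A.restrict F).carrier (A.restrict F).carrier :=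
  inferInstanceAs (SMulCommClass L A.carrier A.carrier)

theorem bound_restrict [CharZero F] (hA : Module.Finite L A.carrier) :
    HasBounds (var {(A.restrict F).envelope}) := by
  have : Module.Finite L (A.restrict F).carrier := hA
  exact bound_of_finite L (A.restrict F) (fun i c a ha => (A.part i).smul_mem c ha)

end restrict

theorem bound_univ : HasBounds (Set.univ : Set (AssocAlg F)) := by
  obtain ⟨r', s', hr, hs, hb⟩ := exists_basicSuperrank (generatedBy_univ (F := F))
  exact ⟨⟨(r', s'), hb, hr⟩, ⟨(r', s'), hb, hs.trans (Nat.zero_le 1)⟩⟩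

end Pool.Agent.Helper29
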