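import Pool.Agent.Helper29.SuperNonunital

/-!
# Extension of scalars and the main theorem
-/

open scoped TensorProduct

universe u v

namespace Pool.Agent.Helper29

variable {F : Type u} [Field F]

theorem eq_zero_of_tmul' {L K A : Type*} [Field L] [AddCommGroup K] [Module L K] [AddCommGroup A]
    [Module L A] {g : K} (hg : g ≠ 0) {x : A} (h : g ⊗ₜ[L] x = 0) : x = 0 := by
  by_contra hx
  have h2 : ∃ φ : Module.Dual L K, φ g ≠ 0 := by
    by_contra hcon
    push Not at hcon
    exact hg ((Module.forall_dual_apply_eq_zero_iff L g).1 hcon)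
  obtain ⟨φ, hφ⟩ := h2
  have h3 := congrArg (fun t => TensorProduct.lid L A (φ.rTensor A t)) h
  simp only [LinearMap.rTensor_tmul, TensorProduct.lid_tmul, map_zero] at h3
  exact (smul_eq_zero.1 h3).elim hφ hx

section baseChange

variable (A : SuperAlg F) (L : Type u) [Field L] [Algebra F L] [Module L A.carrier]
  [IsScalarTower F L A.carrier] [IsScalarTower L A.carrier A.carrier]
  [SMulCommClass L A.carrier A.carrier] (K : Type u) [Field K] [Algebra L K] [Algebra F K]
  [IsScalarTower F L K]

/-- The homogeneous components of `K ⊗ A`. -/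
def bcPart (i : ZMod 2) : Submodule F (K ⊗[L] A.carrier) :=
  Submodule.span F {t | ∃ c : K, ∃ a ∈ A.part i, t = c ⊗ₜ[L] a}

omit [IsScalarTower F L A.carrier] [IsScalarTower L A.carrier A.carrier]
  [SMulCommClass L A.carrier A.carrier] in
theorem tmul_mem_bcPart {i : ZMod 2} (c : K) {a : A.carrier} (ha : a ∈ A.part i) :
    c ⊗ₜ[L] a ∈ bcPart A L K i := Submodule.subset_span ⟨c, a, ha, rfl⟩

/-- The parity automorphism as an `L`-linear map. -/
noncomputable def sigL (hpart : ∀ (i : ZMod 2) (c : L) (a : A.carrier), a ∈ A.part i →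
    c • a ∈ A.part i) : A.carrier →ₗ[L] A.carrier where
  toFun := A.sig
  map_add' := map_add _
  map_smul' := fun c a => A.sig_smul L hpart c a

/-- Extension of scalars of a superalgebra. -/
noncomputable def SuperAlg.bc (h2 : (2 : F) ≠ 0) (hpart : ∀ (i : ZMod 2) (c : L) (a : A.carrier),
    a ∈ A.part i → c • a ∈ A.part i) : SuperAlg F where
  carrier := K ⊗[L] A.carrier
  smul_mul := fun c a b => smul_mul_assoc c a b
  mul_smul := fun c a b => mul_smul_comm c a b
  part := bcPart A L K
  isCompl := by
    refine IsCompl.of_le ?_ ?_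
    · rintro x ⟨h0, h1⟩
      let m := TensorProduct.map (LinearMap.id : K →ₗ[L] K) (sigL A L hpart)
      have hm : ∀ i, ∀ x ∈ bcPart A L K i, m x = sgn F i • x := by
        intro i x hx
        induction hx using Submodule.span_induction with
        | mem x hx =>
          obtain ⟨c, a, ha, rfl⟩ := hx
          rw [TensorProduct.map_tmul, LinearMap.id_apply]
          have : sigL A L hpart a = A.sig a := rfl
          rw [this, A.sig_of_mem ha]
          exact TensorProduct.tmul_smul (sgn F i) c a
        | zero => rw [map_zero, smul_zero]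
        | add x y _ _ hx hy => rw [map_add, hx, hy, smul_add]
        | smul c x _ hx =>
          have : c • x = algebraMap F L c • x := (algebraMap_smul L c x).symm
          rw [this, map_smul, hx, algebraMap_smul, algebraMap_smul, smul_comm]
      have e0 := hm 0 x h0
      have e1 := hm 1 x h1
      rw [e0] at e1
      have e3 : sgn F 0 • x = x := one_smul F x
      have e4 : sgn F 1 • x = -x := neg_one_smul F x
      have e5 : x = -x := e3.symm.trans (e1.trans e4)
      have e2 : (2 : F) • x = 0 :=
        (two_smul F x).trans ((congrArg (fun t => x + t) e5).trans (add_neg_cancel x))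
      exact (smul_eq_zero.1 e2).resolve_left h2
    · rintro x -
      induction x using TensorProduct.induction_on with
      | zero => exact Submodule.zero_mem _
      | tmul c a =>
        have ha : a ∈ A.part 0 ⊔ A.part 1 := by rw [A.isCompl.sup_eq_top]; trivial
        obtain ⟨a0, h0, a1, h1, rfl⟩ := Submodule.mem_sup.1 ha
        rw [TensorProduct.tmul_add]
        exact Submodule.add_mem_sup (tmul_mem_bcPart A L K c h0) (tmul_mem_bcPart A L K c h1)
      | add x y hx hy => exact Submodule.add_mem _ hx hy
  mul_mem := by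
    intro i j x y hx hy
    induction hx using Submodule.span_induction with
    | mem x hx =>
      induction hy using Submodule.span_induction with
      | mem y hy =>
        obtain ⟨c, a, ha, rfl⟩ := hx
        obtain ⟨d, b, hb, rfl⟩ := hy
        rw [Algebra.TensorProduct.tmul_mul_tmul]
        exact tmul_mem_bcPart A L K _ (A.mul_mem ha hb)
      | zero => rw [mul_zero]; exact Submodule.zero_mem _
      | add y z _ _ h1 h2 => rw [mul_add]; exact Submodule.add_mem _ h1 h2
      | smul c y _ h => rw [mul_smul_comm]; exact Submodule.smul_mem _ _ h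
    | zero => rw [zero_mul]; exact Submodule.zero_mem _
    | add x z _ _ h1 h2 => rw [add_mul]; exact Submodule.add_mem _ h1 h2
    | smul c x _ h => rw [smul_mul_assoc]; exact Submodule.smul_mem _ _ h

/-- The map `a ↦ 1 ⊗ a`. -/
noncomputable def bcIncl : A.carrier →ₙₐ[F] K ⊗[L] A.carrier where
  toFun a := 1 ⊗ₜ[L] a
  map_smul' c a := TensorProduct.tmul_smul c 1 a
  map_zero' := TensorProduct.tmul_zero _ _
  map_add' a b := TensorProduct.tmul_add _ _ _
  map_mul' a b := by
    show _ = (1 : K) ⊗ₜ[L] a * (1 : K) ⊗ₜ[L] b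
    rw [Algebra.TensorProduct.tmul_mul_tmul, mul_one]

theorem bc_vanish_aux {f : MLPoly F} (h : A.SVanish f) (ε : Fin (f.n + 1) → ZMod 2)
    (x : Fin (f.n + 1) → K ⊗[L] A.carrier) (hx : ∀ i, x i ∈ bcPart A L K (ε i)) :
    evalML (K ⊗[L] A.carrier) (skoef f ε) x = 0 := by
  let m : MultilinearMap K (fun _ : Fin (f.n + 1) => K ⊗[L] A.carrier) (K ⊗[L] A.carrier) :=
    evalML (K ⊗[L] A.carrier) (fun σ => algebraMap F K (skoef f ε σ))
  have hm : ∀ a, m a = evalML (K ⊗[L] A.carrier) (skoef f ε) a := by
    intro a
    rw [evalML_apply, evalML_apply]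
    refine Finset.sum_congr rfl (fun σ _ => ?_)
    exact algebraMap_smul K (skoef f ε σ) _
  rw [← hm]
  refine MultilinearMap_eq_zero_of_span m
    (fun i => {t | ∃ a ∈ A.part (ε i), t = bcIncl A L K a}) (fun b hb => ?_) x (fun i => ?_)
  · choose a ha hab using hb
    rw [hm, show b = fun i => bcIncl A L K (a i) from funext hab, ← evalML_map, h ε a ha, map_zero]
  · have hxi := hx i
    generalize x i = y at hxi
    induction hxi using Submodule.span_induction with
    | mem t ht =>
      obtain ⟨c, a, ha, rfl⟩ := ht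
      have : c ⊗ₜ[L] a = c • (bcIncl A L K a) := by
        show _ = c • ((1 : K) ⊗ₜ[L] a)
        rw [TensorProduct.smul_tmul', smul_eq_mul, mul_one]
      rw [this]
      exact Submodule.smul_mem _ _ (Submodule.subset_span ⟨a, ha, rfl⟩)
    | zero => exact Submodule.zero_mem _
    | add x y _ _ hx hy => exact Submodule.add_mem _ hx hy
    | smul c x _ hx =>
      have : c • x = algebraMap F K c • x := (algebraMap_smul K c x).symm
      rw [this]
      exact Submodule.smul_mem _ _ hx

theorem bc_SVanish_iff (h2 : (2 : F) ≠ 0) (hpart : ∀ (i : ZMod 2) (c : L) (a : A.carrier),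
    a ∈ A.part i → c • a ∈ A.part i) (f : MLPoly F) :
    (A.bc L K h2 hpart).SVanish f ↔ A.SVanish f := by
  constructor
  · intro h ε a ha
    have h1 : evalML (K ⊗[L] A.carrier) (skoef f ε) (fun i => bcIncl A L K (a i)) = 0 :=
      h ε _ (fun i => tmul_mem_bcPart A L K 1 (ha i))
    rw [← evalML_map] at h1
    exact eq_zero_of_tmul' (L := L) (K := K) one_ne_zero h1
  · intro h ε x hx
    exact bc_vanish_aux A L K h ε x hx

theorem var_bc (h2 : (2 : F) ≠ 0) (hpart : ∀ (i : ZMod 2) (c : L) (a : A.carrier),
    a ∈ A.part i → c • a ∈ A.part i) :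
    var {(A.bc L K h2 hpart).envelope} = var {A.envelope} := by
  ext C
  rw [mem_var_singleton, mem_var_singleton]
  have h : ∀ f, (A.bc L K h2 hpart).envelope.Satisfies f ↔ A.envelope.Satisfies f := fun f => by
    rw [SuperAlg.satisfies_iff, SuperAlg.satisfies_iff, bc_SVanish_iff]
  simp only [h]

section inst

variable (h2 : (2 : F) ≠ 0) (hpart : ∀ (i : ZMod 2) (c : L) (a : A.carrier),
  a ∈ A.part i → c • a ∈ A.part i)

noncomputable instance bcModule : Module K (A.bc L K h2 hpart).carrier :=
  inferInstanceAs (Module K (K ⊗[L] A.carrier))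

instance bcTower : IsScalarTower F K (A.bc L K h2 hpart).carrier :=
  inferInstanceAs (IsScalarTower F K (K ⊗[L] A.carrier))

instance bcTower' :
    IsScalarTower K (A.bc L K h2 hpart).carrier (A.bc L K h2 hpart).carrier :=
  inferInstanceAs (IsScalarTower K (K ⊗[L] A.carrier) (K ⊗[L] A.carrier))

instance bcComm :
    SMulCommClass K (A.bc L K h2 hpart).carrier (A.bc L K h2 hpart).carrier :=
  inferInstanceAs (SMulCommClass K (K ⊗[L] A.carrier) (K ⊗[L] A.carrier))

instance bcFinite [Module.Finite L A.carrier] : Module.Finite K (A.bc L K h2 hpart).carrier :=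
  inferInstanceAs (Module.Finite K (K ⊗[L] A.carrier))

theorem bc_part_smul (i : ZMod 2) (c : K) (a : (A.bc L K h2 hpart).carrier)
    (ha : a ∈ (A.bc L K h2 hpart).part i) : c • a ∈ (A.bc L K h2 hpart).part i := by
  have key : ∀ (t : K ⊗[L] A.carrier), t ∈ bcPart A L K i → c • t ∈ bcPart A L K i := by
    intro t ht
    induction ht using Submodule.span_induction with
    | mem t ht =>
      obtain ⟨d, a, ha, rfl⟩ := ht
      rw [TensorProduct.smul_tmul']
      exact tmul_mem_bcPart A L K _ ha
    | zero => rw [smul_zero]; exact Submodule.zero_mem _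
    | add x y _ _ hx hy => rw [smul_add]; exact Submodule.add_mem _ hx hy
    | smul d x _ hx => rw [smul_comm]; exact Submodule.smul_mem _ _ hx
  exact key a ha

include h2 hpart in
theorem bound_of_bc [IsAlgClosed K] [Module.Finite L A.carrier] :
    HasBounds (var {A.envelope}) := by
  have h2K : (2 : K) ≠ 0 := by
    have : (2 : K) = algebraMap F K 2 := by rw [map_ofNat]
    rw [this]
    exact fun h' => h2 ((map_eq_zero _).1 h')
  obtain ⟨N, hN⟩ := hasStruct_of_algClosed (A.bc L K h2 hpart) K h2K
    (bc_part_smul A L K h2 hpart)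
  have := hN.bound (L := K)
  rwa [var_bc A L K h2 hpart] at this

end inst

end baseChange

/-- Main theorem. -/
theorem bound_of_finite [CharZero F] (L : Type u) [Field L] [Algebra F L] (A : SuperAlg F)
    [Module L A.carrier] [IsScalarTower F L A.carrier] [IsScalarTower L A.carrier A.carrier]
    [SMulCommClass L A.carrier A.carrier] [Module.Finite L A.carrier]
    (hpart : ∀ (i : ZMod 2) (c : L) (a : A.carrier), a ∈ A.part i → c • a ∈ A.part i) :
    HasBounds (var {A.envelope}) :=
  bound_of_bc A L (AlgebraicClosure L) two_ne_zero hpart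

end Pool.Agent.Helper29
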