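import Pool.Agent.Helper29.SuperFree

/-!
# Super-evaluation of multilinear polynomials and Grassmann envelopes
-/

open scoped TensorProduct

universe u v

namespace Pool.Agent.Helper29

theorem zmod2_cases (i : ZMod 2) : i = 0 ∨ i = 1 := by
  revert i; decide

section nprod

variable {A B : Type u}

theorem nprod_map [Mul A] [Mul B] (φ : A → B) (h : ∀ x y, φ (x * y) = φ x * φ y) :
    ∀ {n : ℕ} (a : Fin (n + 1) → A), φ (nprod a) = nprod (fun i => φ (a i))
  | 0, a => rfl
  | (n + 1), a => by
    simp only [nprod]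
    rw [h, nprod_map φ h]

theorem nprod_eq_list [Monoid A] : ∀ {n : ℕ} (a : Fin (n + 1) → A),
    nprod a = (List.ofFn a).prod
  | 0, a => by simp [nprod]
  | (n + 1), a => by
    rw [List.ofFn_succ_last, List.prod_append, List.prod_singleton]
    simp only [nprod]
    rw [nprod_eq_list]

theorem nprod_update_last [Mul A] {n : ℕ} (a : Fin (n + 2) → A) (x : A) :
    nprod (Function.update a (Fin.last _) x) = nprod (fun i : Fin (n + 1) => a i.castSucc) * x := by
  simp only [nprod, Function.update_self]
  congr 2
  funext i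
  rw [Function.update_of_ne (Fin.castSucc_lt_last i).ne]

theorem nprod_update_castSucc [Mul A] {n : ℕ} (a : Fin (n + 2) → A) (j : Fin (n + 1)) (x : A) :
    nprod (Function.update a j.castSucc x) =
      nprod (Function.update (fun i : Fin (n + 1) => a i.castSucc) j x) * a (Fin.last _) := by
  simp only [nprod]
  congr 1
  · congr 1
    funext i
    by_cases h : i = j
    · subst h; simp
    · rw [Function.update_of_ne h, Function.update_of_ne]
      exact fun h' => h (Fin.castSucc_injective _ h')
  · rw [Function.update_of_ne (Fin.castSucc_lt_last j).ne']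

variable {R : Type v} [Field R] [NonUnitalRing A] [Module R A] [IsScalarTower R A A]
  [SMulCommClass R A A]

theorem nprod_update_add {n : ℕ} (a : Fin (n + 1) → A) (i : Fin (n + 1)) (x y : A) :
    nprod (Function.update a i (x + y)) =
      nprod (Function.update a i x) + nprod (Function.update a i y) := by
  induction n with
  | zero =>
    have : i = 0 := Fin.fin_one_eq_zero i
    subst this
    simp [nprod]
  | succ n ih =>
    induction i using Fin.lastCases with
    | last => simp only [nprod_update_last, mul_add]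
    | cast j => simp only [nprod_update_castSucc, ih, add_mul]

theorem nprod_update_smul {n : ℕ} (a : Fin (n + 1) → A) (i : Fin (n + 1)) (c : R) (x : A) :
    nprod (Function.update a i (c • x)) = c • nprod (Function.update a i x) := by
  induction n with
  | zero =>
    have : i = 0 := Fin.fin_one_eq_zero i
    subst this
    simp [nprod]
  | succ n ih =>
    induction i using Fin.lastCases with
    | last => simp only [nprod_update_last, mul_smul_comm]
    | cast j => simp only [nprod_update_castSucc, ih, smul_mul_assoc]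

variable (R A) in
/-- `nprod` as a multilinear map. -/
def nprodML (n : ℕ) : MultilinearMap R (fun _ : Fin (n + 1) => A) A where
  toFun := nprod
  map_update_add' := by
    intro inst a i x y
    have : inst = instDecidableEqFin (n + 1) := Subsingleton.elim _ _
    subst this
    exact nprod_update_add a i x y
  map_update_smul' := by
    intro inst a i c x
    have : inst = instDecidableEqFin (n + 1) := Subsingleton.elim _ _
    subst this
    exact nprod_update_smul a i c x

variable (A) in
/-- The multilinear map attached to a family of coefficients. -/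
noncomputable def evalML {n : ℕ} (w : Equiv.Perm (Fin (n + 1)) → R) :
    MultilinearMap R (fun _ : Fin (n + 1) => A) A :=
  ∑ σ, w σ • (nprodML A R n).domDomCongr σ

theorem evalML_apply {n : ℕ} (w : Equiv.Perm (Fin (n + 1)) → R) (a : Fin (n + 1) → A) :
    evalML A w a = ∑ σ, w σ • nprod (fun i => a (σ i)) := by
  simp [evalML, nprodML]

end nprod

/-- A multilinear map that vanishes on all tuples with entries in given sets vanishes on all tuples
with entries in their spans. -/
theorem MultilinearMap_eq_zero_of_span {R : Type*} {M N ι : Type*} [Finite ι] [CommSemiring R]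
    [AddCommMonoid M] [Module R M] [AddCommMonoid N] [Module R N]
    (m : MultilinearMap R (fun _ : ι => M) N) (P : ι → Set M)
    (h : ∀ a : ι → M, (∀ i, a i ∈ P i) → m a = 0) (a : ι → M)
    (ha : ∀ i, a i ∈ Submodule.span R (P i)) : m a = 0 := by
  classical
  cases nonempty_fintype ι
  suffices H : ∀ s : Finset ι, ∀ a : ι → M, (∀ i ∈ s, a i ∈ Submodule.span R (P i)) →
      (∀ i, i ∉ s → a i ∈ P i) → m a = 0 from
    H Finset.univ a (fun i _ => ha i) (fun i hi => absurd (Finset.mem_univ i) hi)
  intro s
  induction s using Finset.induction_on with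
  | empty => exact fun a _ h2 => h a (fun i => h2 i (Finset.notMem_empty i))
  | insert i s his ih =>
    intro a h1 h2
    have hle : Submodule.span R (P i) ≤ LinearMap.ker (m.toLinearMap a i) := by
      rw [Submodule.span_le]
      intro x hx
      show m.toLinearMap a i x = 0
      rw [MultilinearMap.toLinearMap_apply]
      refine ih _ (fun j hj => ?_) (fun j hj => ?_)
      · have hji : j ≠ i := fun h' => his (h' ▸ hj)
        rw [Function.update_of_ne hji]
        exact h1 j (Finset.mem_insert_of_mem hj)
      · by_cases hji : j = i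
        · subst hji; rw [Function.update_self]; exact hx
        · rw [Function.update_of_ne hji]
          exact h2 j (fun h' => (Finset.mem_insert.1 h').elim hji hj)
    have h3 := hle (h1 i (Finset.mem_insert_self i s))
    rw [LinearMap.mem_ker, MultilinearMap.toLinearMap_apply, Function.update_eq_self] at h3
    exact h3

section grassmann

variable {F : Type u} [Field F]

theorem one_mem_gpart : (1 : Grassmann F) ∈ gpart F 0 :=
  SetLike.GradedOne.one_mem (A := CliffordAlgebra.evenOdd (0 : QuadraticForm F (ℕ →₀ F)))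

theorem ι_mem_gpart (x : ℕ →₀ F) : (ExteriorAlgebra.ι F x : Grassmann F) ∈ gpart F 1 :=
  CliffordAlgebra.ι_mem_evenOdd_one _ _

theorem gpart_mul_mem {i j : ZMod 2} {g h : Grassmann F} (hg : g ∈ gpart F i)
    (hh : h ∈ gpart F j) : g * h ∈ gpart F (i + j) :=
  SetLike.GradedMul.mul_mem (A := CliffordAlgebra.evenOdd (0 : QuadraticForm F (ℕ →₀ F))) hg hh

/-- The sign of the supercommutation rule. -/
def sg (F : Type u) [Field F] (i j : ZMod 2) : F := if i = 1 ∧ j = 1 then -1 else 1

theorem gpart_comm {i j : ZMod 2} {g h : Grassmann F} (hg : g ∈ gpart F i) (hh : h ∈ gpart F j) :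
    g * h = sg F i j • (h * g) := by
  have ho : ∀ x y : ℕ →₀ F, (0 : QuadraticForm F (ℕ →₀ F)).IsOrtho
      (QuadraticMap.Isometry.id (0 : QuadraticForm F (ℕ →₀ F)) x)
      (QuadraticMap.Isometry.id (0 : QuadraticForm F (ℕ →₀ F)) y) := by
    intro x y; simp [QuadraticMap.IsOrtho]
  have hid : ∀ g : Grassmann F, CliffordAlgebra.map
      (QuadraticMap.Isometry.id (0 : QuadraticForm F (ℕ →₀ F))) g = g := by
    intro g; rw [CliffordAlgebra.map_id]; rfl
  rcases zmod2_cases i with rfl | rfl
  · have := CliffordAlgebra.commute_map_mul_map_of_isOrtho_of_mem_evenOdd_zero_left _ _ ho g h hg hh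
    rw [hid, hid] at this
    simpa [sg] using this.eq
  · rcases zmod2_cases j with rfl | rfl
    · have := CliffordAlgebra.commute_map_mul_map_of_isOrtho_of_mem_evenOdd_zero_right
        _ _ ho g h hg hh
      rw [hid, hid] at this
      simpa [sg] using this.eq
    · have := CliffordAlgebra.map_mul_map_eq_neg_of_isOrtho_of_mem_evenOdd_one _ _ ho g h hg hh
      rw [hid, hid] at this
      simpa [sg] using this

theorem list_koszul {n : ℕ} (ε : Fin n → ZMod 2) {l₁ l₂ : List (Fin n)} (h : l₁.Perm l₂) :
    ∃ c : F, ∀ g : Fin n → Grassmann F, (∀ i, g i ∈ gpart F (ε i)) →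
      (l₁.map g).prod = c • (l₂.map g).prod := by
  induction h with
  | nil => exact ⟨1, fun g _ => by simp⟩
  | cons x _ ih =>
    obtain ⟨c, hc⟩ := ih
    refine ⟨c, fun g hg => ?_⟩
    rw [List.map_cons, List.prod_cons, List.map_cons, List.prod_cons, hc g hg, mul_smul_comm]
  | swap x y l =>
    refine ⟨sg F (ε y) (ε x), fun g hg => ?_⟩
    simp only [List.map_cons, List.prod_cons, ← mul_assoc]
    rw [gpart_comm (hg y) (hg x), smul_mul_assoc]
  | trans _ _ ih1 ih2 =>
    obtain ⟨c, hc⟩ := ih1
    obtain ⟨d, hd⟩ := ih2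
    exact ⟨c * d, fun g hg => by rw [hc g hg, hd g hg, mul_smul]⟩

theorem exists_koszul (F : Type u) [Field F] {n : ℕ} (ε : Fin (n + 1) → ZMod 2)
    (σ : Equiv.Perm (Fin (n + 1))) :
    ∃ c : F, ∀ g : Fin (n + 1) → Grassmann F, (∀ i, g i ∈ gpart F (ε i)) →
      nprod (fun i => g (σ i)) = c • nprod g := by
  obtain ⟨c, hc⟩ := list_koszul (F := F) ε (Equiv.Perm.map_finRange_perm σ)
  refine ⟨c, fun g hg => ?_⟩
  have := hc g hg
  rw [nprod_eq_list, nprod_eq_list, List.ofFn_eq_map, List.ofFn_eq_map]
  rw [List.map_map] at this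
  exact this

/-- The Koszul sign. -/
noncomputable def koszul (F : Type u) [Field F] {n : ℕ} (ε : Fin (n + 1) → ZMod 2)
    (σ : Equiv.Perm (Fin (n + 1))) : F := Classical.choose (exists_koszul F ε σ)

theorem koszul_spec {n : ℕ} (ε : Fin (n + 1) → ZMod 2)
    (σ : Equiv.Perm (Fin (n + 1))) (g : Fin (n + 1) → Grassmann F)
    (hg : ∀ i, g i ∈ gpart F (ε i)) :
    nprod (fun i => g (σ i)) = koszul F ε σ • nprod g :=
  Classical.choose_spec (exists_koszul F ε σ) g hg

theorem ιMulti_ne_zero {k : ℕ} (t : Fin k → ℕ) (ht : Function.Injective t) :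
    ExteriorAlgebra.ιMulti F k (fun i => (Finsupp.single (t i) 1 : ℕ →₀ F)) ≠ 0 := by
  intro h
  let L : (ℕ →₀ F) →ₗ[F] (Fin k → F) := LinearMap.pi (fun i => Finsupp.lapply (t i))
  let f : (ℕ →₀ F) [⋀^Fin k]→ₗ[F] F := Matrix.detRowAlternating.compLinearMap L
  let φ : ∀ i, (ℕ →₀ F) [⋀^Fin i]→ₗ[F] F := fun i => if h : i = k then h ▸ f else 0
  have h1 := ExteriorAlgebra.liftAlternating_apply_ιMulti φ
    (fun i : Fin k => (Finsupp.single (t i) 1 : ℕ →₀ F))
  rw [h, map_zero] at h1
  have h2 : φ k = f := by simp [φ]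
  rw [h2] at h1
  have h3 : f (fun i => (Finsupp.single (t i) 1 : ℕ →₀ F)) =
      Matrix.det (1 : Matrix (Fin k) (Fin k) F) := by
    show Matrix.detRowAlternating (fun i => L (Finsupp.single (t i) 1)) = _
    have : (fun i => L (Finsupp.single (t i) 1)) = (1 : Matrix (Fin k) (Fin k) F) := by
      funext i j
      simp only [L, LinearMap.pi_apply, Finsupp.lapply_apply, Finsupp.single_apply,
        Matrix.one_apply, ht.eq_iff]
    rw [this]; rfl
  rw [h3, Matrix.det_one] at h1
  exact zero_ne_one h1

theorem list_prod_ι_ne_zero (l : List ℕ) (hl : l.Nodup) :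
    (l.map (fun i => (ExteriorAlgebra.ι F (Finsupp.single i 1 : ℕ →₀ F)))).prod ≠ 0 := by
  have h := ιMulti_ne_zero (F := F) (fun i : Fin l.length => l.get i) hl.injective_get
  rw [ExteriorAlgebra.ιMulti_apply] at h
  have h2 : l.map (fun i => (ExteriorAlgebra.ι F (Finsupp.single i 1 : ℕ →₀ F))) =
      List.ofFn (fun i : Fin l.length =>
        ExteriorAlgebra.ι F (Finsupp.single (l.get i) 1 : ℕ →₀ F)) := by
    conv_lhs => rw [← List.ofFn_get l]
    rw [List.map_ofFn]; rfl
  rw [h2]
  exact h

/-- Test elements of prescribed parities whose product does not vanish. -/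
noncomputable def testG (F : Type u) [Field F] {n : ℕ} (ε : Fin (n + 1) → ZMod 2)
    (i : Fin (n + 1)) : Grassmann F :=
  if ε i = 1 then ExteriorAlgebra.ι F (Finsupp.single (i : ℕ) 1) else 1

theorem testG_mem {n : ℕ} (ε : Fin (n + 1) → ZMod 2) (i : Fin (n + 1)) :
    testG F ε i ∈ gpart F (ε i) := by
  unfold testG
  split_ifs with h
  · rw [h]; exact ι_mem_gpart _
  · have : ε i = 0 := (zmod2_cases (ε i)).resolve_right h
    rw [this]; exact one_mem_gpart

theorem list_prod_ite {M : Type*} [Monoid M] {α : Type*} (p : α → Prop) [DecidablePred p]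
    (f : α → M) (l : List α) :
    (l.map (fun i => if p i then f i else 1)).prod = ((l.filter p).map f).prod := by
  induction l with
  | nil => simp
  | cons x l ih =>
    by_cases h : p x <;> simp [h, ih]

theorem testG_prod_ne_zero {n : ℕ} (ε : Fin (n + 1) → ZMod 2) :
    nprod (testG F ε) * ExteriorAlgebra.ι F (Finsupp.single (n + 1) 1) ≠ 0 := by
  rw [nprod_eq_list, List.ofFn_eq_map]
  have h1 : (List.finRange (n + 1)).map (testG F ε) = (List.finRange (n + 1)).map (fun i =>
      if ε i = 1 then ExteriorAlgebra.ι F (Finsupp.single (i : ℕ) (1 : F)) else 1) := rfl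
  rw [h1, list_prod_ite (fun i => ε i = 1)
    (fun i : Fin (n + 1) => ExteriorAlgebra.ι F (Finsupp.single (i : ℕ) (1 : F)))]
  have h2 := list_prod_ι_ne_zero (F := F)
    ((((List.finRange (n + 1)).filter (fun i => ε i = 1)).map Fin.val) ++ [n + 1]) ?_
  · rw [List.map_append, List.map_map, List.prod_append] at h2
    simpa [Function.comp_def] using h2
  · rw [List.nodup_append]
    refine ⟨?_, List.nodup_singleton _, ?_⟩
    · exact ((List.nodup_finRange _).filter _).map Fin.val_injective
    · intro a ha b hb
      rw [List.mem_singleton] at hb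
      obtain ⟨i, -, rfl⟩ := List.mem_map.1 ha
      have := i.2
      omega

theorem nprod_testG_ne_zero {n : ℕ} (ε : Fin (n + 1) → ZMod 2) : nprod (testG F ε) ≠ 0 :=
  fun h => testG_prod_ne_zero (F := F) ε (by rw [h, zero_mul])

theorem nprod_tmul {A : Type u} [NonUnitalRing A] [Module F A] [IsScalarTower F A A]
    [SMulCommClass F A A] : ∀ {n : ℕ} (g : Fin (n + 1) → Grassmann F) (a : Fin (n + 1) → A),
    nprod (fun i => g i ⊗ₜ[F] a i) = nprod g ⊗ₜ[F] nprod a
  | 0, _, _ => rfl
  | (n + 1), g, a => by
    simp only [nprod]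
    rw [nprod_tmul (fun i : Fin (n + 1) => g i.castSucc) (fun i : Fin (n + 1) => a i.castSucc),
      Algebra.TensorProduct.tmul_mul_tmul]

theorem eq_zero_of_tmul {A : Type u} [AddCommGroup A] [Module F A] {g : Grassmann F} (hg : g ≠ 0)
    {x : A} (h : g ⊗ₜ[F] x = 0) : x = 0 := by
  by_contra hx
  have h2 : ∃ φ : Module.Dual F (Grassmann F), φ g ≠ 0 := by
    by_contra hcon
    push Not at hcon
    exact hg ((Module.forall_dual_apply_eq_zero_iff F g).1 hcon)
  obtain ⟨φ, hφ⟩ := h2
  have h3 := congrArg (fun t => TensorProduct.lid F A (φ.rTensor A t)) h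
  simp only [LinearMap.rTensor_tmul, TensorProduct.lid_tmul, map_zero] at h3
  exact (smul_eq_zero.1 h3).elim hφ hx

end grassmann

section envelope

variable {F : Type u} [Field F]

/-- The coefficients of the superization of `f` for the parities `ε`. -/
noncomputable def skoef (f : MLPoly F) (ε : Fin (f.n + 1) → ZMod 2)
    (σ : Equiv.Perm (Fin (f.n + 1))) : F := f.coeff σ * koszul F ε σ

/-- All superizations of `f` vanish on `A`. -/
def SuperAlg.SVanish (A : SuperAlg F) (f : MLPoly F) : Prop :=
  ∀ (ε : Fin (f.n + 1) → ZMod 2) (a : Fin (f.n + 1) → A.carrier), (∀ i, a i ∈ A.part (ε i)) →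
    evalML A.carrier (skoef f ε) a = 0

theorem evalML_tmul (A : SuperAlg F) (f : MLPoly F) (ε : Fin (f.n + 1) → ZMod 2)
    (g : Fin (f.n + 1) → Grassmann F) (hg : ∀ i, g i ∈ gpart F (ε i))
    (a : Fin (f.n + 1) → A.carrier) :
    evalML A.gtensor.carrier f.coeff (fun i => A.gtmul (g i) (a i)) =
      A.gtmul (nprod g) (evalML A.carrier (skoef f ε) a) := by
  rw [evalML_apply, evalML_apply]
  have h1 : A.gtmul (nprod g) (∑ σ, skoef f ε σ • nprod fun i => a (σ i)) =
      ∑ σ, nprod g ⊗ₜ[F] (skoef f ε σ • nprod fun i => a (σ i)) := TensorProduct.tmul_sum _ _ _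
  rw [h1]
  refine Finset.sum_congr rfl (fun σ _ => ?_)
  have h2 : nprod (fun i => A.gtmul (g (σ i)) (a (σ i))) =
      nprod (fun i => g (σ i)) ⊗ₜ[F] nprod (fun i => a (σ i)) :=
    nprod_tmul (fun i => g (σ i)) (fun i => a (σ i))
  have h3 : ∀ (c k : F) (x : Grassmann F) (y : A.carrier),
      c • ((k • x) ⊗ₜ[F] y) = x ⊗ₜ[F] ((c * k) • y) := by
    intro c k x y
    rw [TensorProduct.smul_tmul, TensorProduct.tmul_smul, TensorProduct.tmul_smul, smul_smul]
  refine (congrArg (fun t => f.coeff σ • t) h2).trans ?_
  rw [koszul_spec ε σ g hg, skoef]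
  exact h3 _ _ _ _

theorem SuperAlg.homTensors_mul (A : SuperAlg F) {x y : A.gtensor.carrier}
    (hx : x ∈ A.homTensors) (hy : y ∈ A.homTensors) : x * y ∈ A.homTensors := by
  obtain ⟨i, g, hg, a, ha, rfl⟩ := hx
  obtain ⟨j, h, hh, b, hb, rfl⟩ := hy
  exact ⟨i + j, g * h, gpart_mul_mem hg hh, a * b, A.mul_mem ha hb,
    Algebra.TensorProduct.tmul_mul_tmul _ _ _ _⟩

theorem SuperAlg.span_homTensors_mul (A : SuperAlg F) {x y : A.gtensor.carrier}
    (hx : x ∈ Submodule.span F A.homTensors) (hy : y ∈ Submodule.span F A.homTensors) :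
    x * y ∈ Submodule.span F A.homTensors := by
  induction hx using Submodule.span_induction with
  | mem x hx =>
    induction hy using Submodule.span_induction with
    | mem y hy => exact Submodule.subset_span (A.homTensors_mul hx hy)
    | zero => rw [mul_zero]; exact Submodule.zero_mem _
    | add y z _ _ h1 h2 => rw [mul_add]; exact Submodule.add_mem _ h1 h2
    | smul c y _ h => rw [mul_smul_comm]; exact Submodule.smul_mem _ _ h
  | zero => rw [zero_mul]; exact Submodule.zero_mem _
  | add x z _ _ h1 h2 => rw [add_mul]; exact Submodule.add_mem _ h1 h2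
  | smul c x _ h => rw [smul_mul_assoc]; exact Submodule.smul_mem _ _ h

/-- The inclusion of the Grassmann envelope into the tensor product. -/
noncomputable def SuperAlg.incl (A : SuperAlg F) :
    A.envelope.carrier →ₙₐ[F] A.gtensor.carrier :=
  NonUnitalSubalgebraClass.subtype (NonUnitalAlgebra.adjoin F A.homTensors)

theorem SuperAlg.incl_injective (A : SuperAlg F) : Function.Injective A.incl :=
  Subtype.coe_injective

theorem SuperAlg.incl_mem (A : SuperAlg F) (x : A.envelope.carrier) :
    A.incl x ∈ Submodule.span F A.homTensors := by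
  have hx : A.incl x ∈ NonUnitalAlgebra.adjoin F A.homTensors := x.2
  generalize A.incl x = y at hx
  induction hx using NonUnitalAlgebra.adjoin_induction with
  | mem x hx => exact Submodule.subset_span hx
  | add x y _ _ hx hy => exact Submodule.add_mem _ hx hy
  | zero => exact Submodule.zero_mem _
  | mul x y _ _ hx hy => exact A.span_homTensors_mul hx hy
  | smul c x _ hx => exact Submodule.smul_mem _ _ hx

theorem SuperAlg.incl_sum (A : SuperAlg F) (f : MLPoly F)
    (x : Fin (f.n + 1) → A.envelope.carrier) :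
    A.incl (∑ σ, f.coeff σ • nprod (fun i => x (σ i))) =
      evalML A.gtensor.carrier f.coeff (fun i => A.incl (x i)) := by
  rw [evalML_apply, map_sum]
  refine Finset.sum_congr rfl (fun σ _ => ?_)
  rw [map_smul, nprod_map A.incl (fun s t => map_mul _ s t)]

theorem SuperAlg.satisfies_iff (A : SuperAlg F) (f : MLPoly F) :
    A.envelope.Satisfies f ↔ A.SVanish f := by
  constructor
  · intro h ε a ha
    let x : Fin (f.n + 1) → A.envelope.carrier := fun i =>
      (⟨A.gtmul (testG F ε i) (a i), NonUnitalAlgebra.subset_adjoin F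
        ⟨ε i, _, testG_mem ε i, _, ha i, rfl⟩⟩ : NonUnitalAlgebra.adjoin F A.homTensors)
    have h1 := congrArg A.incl (h x)
    rw [A.incl_sum, map_zero] at h1
    have h3 : evalML A.gtensor.carrier f.coeff
        (fun i => A.gtmul (testG F ε i) (a i)) = 0 := h1
    rw [evalML_tmul A f ε _ (testG_mem ε)] at h3
    exact eq_zero_of_tmul (nprod_testG_ne_zero ε) h3
  · intro h x
    apply A.incl_injective
    rw [A.incl_sum, map_zero]
    refine MultilinearMap_eq_zero_of_span _ (fun _ => A.homTensors) (fun t ht => ?_) _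
      (fun i => A.incl_mem (x i))
    choose ε g hg a ha hga using ht
    have h1 : t = fun i => A.gtmul (g i) (a i) := funext hga
    rw [h1, evalML_tmul A f ε g hg, h ε a ha]
    exact TensorProduct.tmul_zero _ _

end envelope

end Pool.Agent.Helper29
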