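import Pool.Agent.Helper29.SDefs

/-!
# Construction of the free `V`-superalgebra
-/

open scoped TensorProduct

universe u

namespace Pool.Agent.Helper29

variable {F : Type u} [Field F]

/-- The parity of a word: the sum of the parities of its letters. -/
def wordParity {r s : ℕ} (w : FreeSemigroup (Fin r ⊕ Fin s)) : ZMod 2 :=
  letterParity w.head + (w.tail.map letterParity).sum

/-- The value of a noncommutative polynomial without constant term. -/
noncomputable def evalPoly {r s : ℕ} (A : AssocAlg F) (v : Fin r ⊕ Fin s → A.carrier) :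
    MonoidAlgebra F (FreeSemigroup (Fin r ⊕ Fin s)) →ₙₐ[F] A.carrier :=
  MonoidAlgebra.liftMagma F (FreeSemigroup.lift v)

/-- The congruence on the free algebra whose quotient is the free `V`-superalgebra: two
polynomials are congruent when they take the same value under every substitution of homogeneous
elements (even elements for the first `r` letters, odd elements for the last `s` letters) of
every `V`-superalgebra `B` (that is, `G(B) ∈ V`). -/
noncomputable def superCon (V : Set (AssocAlg F)) (r s : ℕ) :
    RingCon (MonoidAlgebra F (FreeSemigroup (Fin r ⊕ Fin s))) where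
  r p q := ∀ B : SuperAlg F, B.envelope ∈ V → ∀ v : Fin r ⊕ Fin s → B.carrier,
    (∀ t, v t ∈ B.part (letterParity t)) → evalPoly B.toAssocAlg v p = evalPoly B.toAssocAlg v q
  iseqv :=
    { refl := fun _ _ _ _ _ => rfl
      symm := fun h B hB v hv => (h B hB v hv).symm
      trans := fun h h' B hB v hv => (h B hB v hv).trans (h' B hB v hv) }
  mul' := fun h h' B hB v hv => by rw [map_mul, map_mul, h B hB v hv, h' B hB v hv]
  add' := fun h h' B hB v hv => by rw [map_add, map_add, h B hB v hv, h' B hB v hv]

/-- Scalar multiplication on the quotient by `superCon`. -/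
noncomputable instance superCon.instSMul (V : Set (AssocAlg F)) (r s : ℕ) :
    SMul F (superCon V r s).Quotient where
  smul c := Quotient.map' (fun p => c • p) (fun _ _ h B hB v hv => by
    rw [map_smul, map_smul, h B hB v hv])

noncomputable instance superCon.instModule (V : Set (AssocAlg F)) (r s : ℕ) :
    Module F (superCon V r s).Quotient where
  one_smul := by rintro ⟨p⟩; exact congrArg _ (one_smul F p)
  mul_smul a b := by rintro ⟨p⟩; exact congrArg _ (mul_smul a b p)
  smul_zero a := congrArg _ (smul_zero a)
  smul_add a := by rintro ⟨p⟩ ⟨q⟩; exact congrArg _ (smul_add a p q)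
  add_smul a b := by rintro ⟨p⟩; exact congrArg _ (add_smul a b p)
  zero_smul := by rintro ⟨p⟩; exact congrArg _ (zero_smul F p)

instance superCon.instIsScalarTower (V : Set (AssocAlg F)) (r s : ℕ) :
    IsScalarTower F (superCon V r s).Quotient (superCon V r s).Quotient where
  smul_assoc a := by rintro ⟨p⟩ ⟨q⟩; exact congrArg _ (smul_mul_assoc a p q)

instance superCon.instSMulCommClass (V : Set (AssocAlg F)) (r s : ℕ) :
    SMulCommClass F (superCon V r s).Quotient (superCon V r s).Quotient where
  smul_comm a := by rintro ⟨p⟩ ⟨q⟩; exact congrArg _ (mul_smul_comm a p q).symm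

/-- The quotient map onto the free `V`-superalgebra. -/
noncomputable def superMk (V : Set (AssocAlg F)) (r s : ℕ) :
    MonoidAlgebra F (FreeSemigroup (Fin r ⊕ Fin s)) →ₙₐ[F] (superCon V r s).Quotient where
  toFun p := (p : (superCon V r s).Quotient)
  map_smul' _ _ := rfl
  map_zero' := rfl
  map_add' _ _ := rfl
  map_mul' _ _ := rfl

theorem superMk_surjective (V : Set (AssocAlg F)) (r s : ℕ) :
    Function.Surjective (superMk V r s) := by
  rintro ⟨p⟩; exact ⟨p, rfl⟩

theorem superMk_eq_iff {V : Set (AssocAlg F)} {r s : ℕ}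
    {p q : MonoidAlgebra F (FreeSemigroup (Fin r ⊕ Fin s))} :
    superMk V r s p = superMk V r s q ↔
      ∀ B : SuperAlg F, B.envelope ∈ V → ∀ v : Fin r ⊕ Fin s → B.carrier,
        (∀ t, v t ∈ B.part (letterParity t)) →
          evalPoly B.toAssocAlg v p = evalPoly B.toAssocAlg v q :=
  (superCon V r s).eq

theorem evalPoly_single {r s : ℕ} (A : AssocAlg F) (v : Fin r ⊕ Fin s → A.carrier)
    (w : FreeSemigroup (Fin r ⊕ Fin s)) :
    evalPoly A v (MonoidAlgebra.single w 1) = FreeSemigroup.lift v w := by
  simp [evalPoly]

theorem wordParity_of {r s : ℕ} (t : Fin r ⊕ Fin s) :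
    wordParity (FreeSemigroup.of t) = letterParity t := by
  simp [wordParity]

theorem wordParity_mul {r s : ℕ} (x y : FreeSemigroup (Fin r ⊕ Fin s)) :
    wordParity (x * y) = wordParity x + wordParity y := by
  simp [wordParity, add_assoc]

theorem lift_mem_part {r s : ℕ} (B : SuperAlg F) (v : Fin r ⊕ Fin s → B.carrier)
    (hv : ∀ t, v t ∈ B.part (letterParity t)) (w : FreeSemigroup (Fin r ⊕ Fin s)) :
    FreeSemigroup.lift v w ∈ B.part (wordParity w) := by
  induction w using FreeSemigroup.recOnMul with
  | ih1 t => rw [FreeSemigroup.lift_of, wordParity_of]; exact hv t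
  | ih2 x y hx hy => rw [map_mul, wordParity_mul]; exact B.mul_mem hx hy

/-- The span of the words of parity `i` in the free algebra. -/
noncomputable def wordPart (F : Type u) [Field F] (r s : ℕ) (i : ZMod 2) :
    Submodule F (MonoidAlgebra F (FreeSemigroup (Fin r ⊕ Fin s))) :=
  Submodule.span F {x | ∃ w, wordParity w = i ∧ x = MonoidAlgebra.single w 1}

theorem evalPoly_mem_part {r s : ℕ} (B : SuperAlg F) (v : Fin r ⊕ Fin s → B.carrier)
    (hv : ∀ t, v t ∈ B.part (letterParity t)) {i : ZMod 2}
    {p : MonoidAlgebra F (FreeSemigroup (Fin r ⊕ Fin s))} (hp : p ∈ wordPart F r s i) :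
    evalPoly B.toAssocAlg v p ∈ B.part i := by
  induction hp using Submodule.span_induction with
  | mem x hx =>
    obtain ⟨w, rfl, rfl⟩ := hx
    rw [evalPoly_single]; exact lift_mem_part B v hv w
  | zero => rw [map_zero]; exact Submodule.zero_mem _
  | add x z _ _ h1 h2 => rw [map_add]; exact Submodule.add_mem _ h1 h2
  | smul c x _ h => rw [map_smul]; exact Submodule.smul_mem _ _ h

theorem wordPart_mul {r s : ℕ} {i j : ZMod 2}
    {p q : MonoidAlgebra F (FreeSemigroup (Fin r ⊕ Fin s))} (hp : p ∈ wordPart F r s i)
    (hq : q ∈ wordPart F r s j) : p * q ∈ wordPart F r s (i + j) := by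
  induction hp using Submodule.span_induction with
  | mem x hx =>
    induction hq using Submodule.span_induction with
    | mem y hy =>
      obtain ⟨w, rfl, rfl⟩ := hx
      obtain ⟨w', rfl, rfl⟩ := hy
      refine Submodule.subset_span ⟨w * w', wordParity_mul _ _, ?_⟩
      rw [MonoidAlgebra.single_mul_single, mul_one]
    | zero => rw [mul_zero]; exact Submodule.zero_mem _
    | add y z _ _ h1 h2 => rw [mul_add]; exact Submodule.add_mem _ h1 h2
    | smul c y _ h => rw [mul_smul_comm]; exact Submodule.smul_mem _ _ h
  | zero => rw [zero_mul]; exact Submodule.zero_mem _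
  | add x z _ _ h1 h2 => rw [add_mul]; exact Submodule.add_mem _ h1 h2
  | smul c x _ h => rw [smul_mul_assoc]; exact Submodule.smul_mem _ _ h

theorem wordPart_sup (F : Type u) [Field F] (r s : ℕ) :
    wordPart F r s 0 ⊔ wordPart F r s 1 = ⊤ := by
  rw [eq_top_iff]
  rintro p -
  induction p using MonoidAlgebra.induction_linear with
  | zero => exact Submodule.zero_mem _
  | add x y hx hy => exact Submodule.add_mem _ hx hy
  | single w c =>
    have h : (MonoidAlgebra.single w c : MonoidAlgebra F (FreeSemigroup (Fin r ⊕ Fin s))) =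
        c • MonoidAlgebra.single w 1 := by simp
    rw [h]
    refine Submodule.smul_mem _ _ ?_
    have h2 : ∀ i : ZMod 2, i = 0 ∨ i = 1 := by decide
    rcases h2 (wordParity w) with h0 | h1
    · exact Submodule.mem_sup_left (Submodule.subset_span ⟨w, h0, rfl⟩)
    · exact Submodule.mem_sup_right (Submodule.subset_span ⟨w, h1, rfl⟩)

/-- The homogeneous components of the free `V`-superalgebra: the span of the images of the words
of parity `i`. -/
noncomputable def freePart (V : Set (AssocAlg F)) (r s : ℕ) (i : ZMod 2) :
    Submodule F (superCon V r s).Quotient :=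
  (wordPart F r s i).map ((superMk V r s : _ →ₙₐ[F] _) : _ →ₗ[F] _)

theorem superMk_mem_freePart {V : Set (AssocAlg F)} {r s : ℕ} {i : ZMod 2}
    {p : MonoidAlgebra F (FreeSemigroup (Fin r ⊕ Fin s))} (hp : p ∈ wordPart F r s i) :
    superMk V r s p ∈ freePart V r s i := ⟨p, hp, rfl⟩

theorem mem_freePart {V : Set (AssocAlg F)} {r s : ℕ} {i : ZMod 2}
    {x : (superCon V r s).Quotient} :
    x ∈ freePart V r s i ↔ ∃ p ∈ wordPart F r s i, superMk V r s p = x := Iff.rfl

/-- The free `V`-superalgebra on `r` even and `s` odd generators. -/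
noncomputable def freeSuper (V : Set (AssocAlg F)) (r s : ℕ) : SuperAlg F where
  carrier := (superCon V r s).Quotient
  smul_mul := fun c a b => smul_mul_assoc c a b
  mul_smul := fun c a b => mul_smul_comm c a b
  part := freePart V r s
  isCompl := by
    refine IsCompl.of_le ?_ ?_
    · rintro x ⟨h0, h1⟩
      obtain ⟨p, hp, rfl⟩ := mem_freePart.1 h0
      obtain ⟨q, hq, hpq⟩ := mem_freePart.1 h1
      have : superMk V r s p = superMk V r s 0 := by
        rw [superMk_eq_iff]
        rw [superMk_eq_iff] at hpq
        intro B hB v hv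
        have h := hpq B hB v hv
        have hp' := evalPoly_mem_part B v hv hp
        have hq' := evalPoly_mem_part B v hv hq
        rw [h] at hq'
        rw [map_zero]
        exact Submodule.disjoint_def.1 B.isCompl.disjoint _ hp' hq'
      rw [this, map_zero]
      exact Submodule.zero_mem _
    · rintro x -
      obtain ⟨p, rfl⟩ := superMk_surjective V r s x
      have hp : p ∈ wordPart F r s 0 ⊔ wordPart F r s 1 := by rw [wordPart_sup]; trivial
      obtain ⟨a, ha, b, hb, rfl⟩ := Submodule.mem_sup.1 hp
      rw [map_add]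
      exact Submodule.add_mem_sup (superMk_mem_freePart ha) (superMk_mem_freePart hb)
  mul_mem := by
    intro i j a b ha hb
    obtain ⟨p, hp, rfl⟩ := mem_freePart.1 ha
    obtain ⟨q, hq, rfl⟩ := mem_freePart.1 hb
    rw [← map_mul]
    exact superMk_mem_freePart (wordPart_mul hp hq)

end Pool.Agent.Helper29
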