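import Pool.Agent.Helper29.SuperXi

/-!
# Detecting identities on free superalgebras with few generators
-/

open scoped TensorProduct

universe u v

namespace Pool.Agent.Helper29

variable {F : Type u} [Field F]

theorem mem_var_singleton {B C : AssocAlg F} :
    C ∈ var {B} ↔ ∀ f : MLPoly F, B.Satisfies f → C.Satisfies f := by
  constructor
  · intro h f hf
    exact h f (fun B' hB' => by rw [Set.mem_singleton_iff.1 hB']; exact hf)
  · intro h f hf
    exact h f (hf B rfl)

/-- A variety of associative algebras: the class of all algebras satisfying a given set of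
(multilinear) identities. -/
def IsVariety (V : Set (AssocAlg F)) : Prop :=
  ∃ S : Set (MLPoly F), V = {A | ∀ f ∈ S, A.Satisfies f}

theorem isVariety_var (K : Set (AssocAlg F)) : IsVariety (var K) :=
  ⟨{f | ∀ B ∈ K, B.Satisfies f}, rfl⟩

/-- The free `V`-superalgebra is a `V`-superalgebra. -/
theorem freeSuper_mem {V : Set (AssocAlg F)} (hV : IsVariety V) (r s : ℕ) :
    (freeSuper V r s).envelope ∈ V := by
  obtain ⟨S, hS⟩ := hV
  have key : ∀ f ∈ S, (freeSuper V r s).envelope.Satisfies f := by
    intro f hf
    rw [SuperAlg.satisfies_iff]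
    intro ε a ha
    have ha' : ∀ i, ∃ p ∈ wordPart F r s (ε i), superMk V r s p = a i := fun i =>
      mem_freePart.1 (ha i)
    choose p hp hpa using ha'
    have e1 : a = fun i => superMk V r s (p i) := funext (fun i => (hpa i).symm)
    have e2 := evalML_map (superMk V r s) (skoef f ε) p
    have e3 : superMk V r s (evalML _ (skoef f ε) p) = superMk V r s 0 := by
      rw [superMk_eq_iff]
      intro B hB v hv
      have e4 := evalML_map (evalPoly B.toAssocAlg v) (skoef f ε) p
      rw [e4, map_zero]
      have hB' : B.envelope.Satisfies f := by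
        rw [hS] at hB; exact hB f hf
      rw [SuperAlg.satisfies_iff] at hB'
      exact hB' ε _ (fun i => evalPoly_mem_part B v hv (hp i))
    rw [e3, map_zero] at e2
    rw [e1]
    exact e2.symm
  rw [hS] at key ⊢
  exact key

/-- The generators of the free superalgebra. -/
noncomputable def freeGen (V : Set (AssocAlg F)) (r s : ℕ) (t : Fin r ⊕ Fin s) :
    (freeSuper V r s).carrier := superMk V r s (MonoidAlgebra.single (FreeSemigroup.of t) 1)

theorem freeGen_mem (V : Set (AssocAlg F)) (r s : ℕ) (t : Fin r ⊕ Fin s) :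
    freeGen V r s t ∈ (freeSuper V r s).part (letterParity t) := by
  refine superMk_mem_freePart (Submodule.subset_span ⟨FreeSemigroup.of t, wordParity_of t, rfl⟩)

/-- The homomorphism given by the universal property. -/
noncomputable def freeLift {V : Set (AssocAlg F)} {r s : ℕ} {B : SuperAlg F}
    (hB : B.envelope ∈ V) (v : Fin r ⊕ Fin s → B.carrier)
    (hv : ∀ t, v t ∈ B.part (letterParity t)) : (freeSuper V r s).carrier → B.carrier :=
  fun q => Quotient.lift (s := (superCon V r s).toSetoid)
    (fun p => evalPoly B.toAssocAlg v p) (fun _ _ h => h B hB v hv) q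

theorem freeLift_superMk {V : Set (AssocAlg F)} {r s : ℕ} {B : SuperAlg F}
    (hB : B.envelope ∈ V) (v : Fin r ⊕ Fin s → B.carrier)
    (hv : ∀ t, v t ∈ B.part (letterParity t))
    (p : MonoidAlgebra F (FreeSemigroup (Fin r ⊕ Fin s))) :
    freeLift hB v hv (superMk V r s p) = evalPoly B.toAssocAlg v p := rfl

theorem isFreeSuper_freeSuper {V : Set (AssocAlg F)} (hV : IsVariety V) (r s : ℕ) :
    IsFreeSuper V (freeSuper V r s) (freeGen V r s) where
  mem := freeSuper_mem hV r s
  hom := freeGen_mem V r s
  lift := by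
    intro B hB v hv
    refine ⟨freeLift hB v hv, ⟨⟨?_, ?_, ?_, ?_⟩, ?_⟩, ?_⟩
    · intro x y
      obtain ⟨p, rfl⟩ := superMk_surjective V r s x
      obtain ⟨q, rfl⟩ := superMk_surjective V r s y
      exact map_add (evalPoly B.toAssocAlg v) p q
    · intro c x
      obtain ⟨p, rfl⟩ := superMk_surjective V r s x
      exact map_smul (evalPoly B.toAssocAlg v) c p
    · intro x y
      obtain ⟨p, rfl⟩ := superMk_surjective V r s x
      obtain ⟨q, rfl⟩ := superMk_surjective V r s y
      exact map_mul (evalPoly B.toAssocAlg v) p q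
    · intro i x hx
      obtain ⟨p, hp, rfl⟩ := mem_freePart.1 hx
      exact evalPoly_mem_part B v hv hp
    · intro t
      show evalPoly B.toAssocAlg v (MonoidAlgebra.single (FreeSemigroup.of t) 1) = v t
      rw [evalPoly_single, FreeSemigroup.lift_of]
    · rintro φ ⟨hφ, hφt⟩
      have hw : ∀ w : FreeSemigroup (Fin r ⊕ Fin s),
          φ (superMk V r s (MonoidAlgebra.single w 1)) = FreeSemigroup.lift v w := by
        intro w
        induction w using FreeSemigroup.recOnMul with
        | ih1 t => rw [FreeSemigroup.lift_of]; exact hφt t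
        | ih2 x y hx hy =>
          have h1 : (MonoidAlgebra.single (FreeSemigroup.of x * y) 1 :
              MonoidAlgebra F (FreeSemigroup (Fin r ⊕ Fin s))) =
              MonoidAlgebra.single (FreeSemigroup.of x) 1 * MonoidAlgebra.single y 1 := by
            rw [MonoidAlgebra.single_mul_single, mul_one]
          have h2 : superMk V r s (MonoidAlgebra.single (FreeSemigroup.of x * y) 1) =
              superMk V r s (MonoidAlgebra.single (FreeSemigroup.of x) 1) *
                superMk V r s (MonoidAlgebra.single y 1) := by rw [h1, map_mul]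
          rw [h2, map_mul, ← hx, ← hy]
          exact hφ.mul _ _
      funext x
      obtain ⟨p, rfl⟩ := superMk_surjective V r s x
      rw [freeLift_superMk]
      have h0 : φ 0 = 0 := by
        have := hφ.smul 0 0
        rwa [zero_smul, zero_smul] at this
      induction p using MonoidAlgebra.induction_linear with
      | zero => rw [map_zero, map_zero]; exact h0
      | add p q hp hq =>
        rw [map_add, map_add, ← hp, ← hq]; exact hφ.add _ _
      | single w c =>
        have h1 : (MonoidAlgebra.single w c : MonoidAlgebra F (FreeSemigroup (Fin r ⊕ Fin s))) =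
            c • MonoidAlgebra.single w 1 := by simp
        rw [h1, map_smul, map_smul, evalPoly_single, ← hw]
        exact hφ.smul _ _

/-- Consequences of an identity holding on the free superalgebra. -/
theorem evalML_eq_zero_of_free {V : Set (AssocAlg F)} {r s : ℕ} {f : MLPoly F}
    (h : (freeSuper V r s).SVanish f) {B : SuperAlg F} (hB : B.envelope ∈ V)
    (v : Fin r ⊕ Fin s → B.carrier) (hv : ∀ t, v t ∈ B.part (letterParity t))
    (ε : Fin (f.n + 1) → ZMod 2) (w : Fin (f.n + 1) → FreeSemigroup (Fin r ⊕ Fin s))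
    (hw : ∀ i, wordParity (w i) = ε i) :
    evalML B.carrier (skoef f ε) (fun i => FreeSemigroup.lift v (w i)) = 0 := by
  let p : Fin (f.n + 1) → MonoidAlgebra F (FreeSemigroup (Fin r ⊕ Fin s)) := fun i =>
    MonoidAlgebra.single (w i) 1
  have hp : ∀ i, p i ∈ wordPart F r s (ε i) := fun i => Submodule.subset_span ⟨w i, hw i, rfl⟩
  have e1 : evalML (superCon V r s).Quotient (skoef f ε) (fun i => superMk V r s (p i)) = 0 :=
    h ε _ (fun i => superMk_mem_freePart (hp i))
  rw [← evalML_map (superMk V r s) (skoef f ε) p] at e1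
  have e2 : superMk V r s (evalML _ (skoef f ε) p) = superMk V r s 0 := by
    rw [e1, map_zero]
  rw [superMk_eq_iff] at e2
  have e3 := e2 B hB v hv
  rw [evalML_map, map_zero] at e3
  have e4 : (fun i => evalPoly B.toAssocAlg v (p i)) = fun i => FreeSemigroup.lift v (w i) :=
    funext (fun i => evalPoly_single _ _ _)
  rw [e4] at e3
  exact e3

theorem exists_word_of_mem_closure {A : Type*} [Semigroup A] {α : Type*} (v : α → A) {x : A}
    (hx : x ∈ Subsemigroup.closure (Set.range v)) : ∃ w : FreeSemigroup α,
      FreeSemigroup.lift v w = x := by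
  induction hx using Subsemigroup.closure_induction with
  | mem x hx => obtain ⟨t, rfl⟩ := hx; exact ⟨FreeSemigroup.of t, FreeSemigroup.lift_of _ _⟩
  | mul x y _ _ hx hy =>
    obtain ⟨w, rfl⟩ := hx
    obtain ⟨w', rfl⟩ := hy
    exact ⟨w * w', map_mul _ _ _⟩

/-- Enumerate a finite set, padding by a default value. -/
theorem exists_enum {α : Type*} (S : Finset α) (z : α) {m : ℕ} (hm : S.card ≤ m) :
    ∃ e : Fin m → α, (∀ j, e j ∈ S ∨ e j = z) ∧ ∀ x ∈ S, ∃ j, e j = x := by
  classical
  refine ⟨fun j => if h : (j : ℕ) < S.card then (S.equivFin.symm ⟨j, h⟩ : S) else z, ?_, ?_⟩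
  · intro j
    by_cases h : (j : ℕ) < S.card
    · left; simp only [h, dif_pos]; exact (S.equivFin.symm ⟨j, h⟩).2
    · right; simp only [h, dif_neg, not_false_iff]
  · intro x hx
    let k := S.equivFin ⟨x, hx⟩
    refine ⟨⟨k, k.2.trans_le hm⟩, ?_⟩
    have hk : (k : ℕ) < S.card := k.2
    simp only [hk, dif_pos]
    simp [k]

/-- Criterion for a polynomial not to be an identity of the envelope of a free superalgebra. -/
theorem not_SVanish_free {V : Set (AssocAlg F)} {r s : ℕ} {f : MLPoly F} {B : SuperAlg F}
    (hB : B.envelope ∈ V) (E O : Finset B.carrier) (hE : ∀ x ∈ E, x ∈ B.part 0)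
    (hO : ∀ x ∈ O, x ∈ B.part 1) (hEr : E.card ≤ r) (hOs : O.card ≤ s)
    (ε : Fin (f.n + 1) → ZMod 2) (a : Fin (f.n + 1) → B.carrier)
    (ha : ∀ i, a i ∈ B.part (ε i))
    (ha' : ∀ i, a i ∈ Subsemigroup.closure ((E : Set B.carrier) ∪ O))
    (hne : evalML B.carrier (skoef f ε) a ≠ 0) : ¬ (freeSuper V r s).SVanish f := by
  intro h
  obtain ⟨e, he1, he2⟩ := exists_enum E 0 hEr
  obtain ⟨o, ho1, ho2⟩ := exists_enum O 0 hOs
  let v : Fin r ⊕ Fin s → B.carrier := Sum.elim e o
  have hv : ∀ t, v t ∈ B.part (letterParity t) := by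
    rintro (t | t)
    · rcases he1 t with h1 | h1
      · exact hE _ h1
      · show e t ∈ _; rw [h1]; exact Submodule.zero_mem _
    · rcases ho1 t with h1 | h1
      · exact hO _ h1
      · show o t ∈ _; rw [h1]; exact Submodule.zero_mem _
  have hsub : (E : Set B.carrier) ∪ O ⊆ Set.range v := by
    rintro x (hx | hx)
    · obtain ⟨j, rfl⟩ := he2 x hx; exact ⟨Sum.inl j, rfl⟩
    · obtain ⟨j, rfl⟩ := ho2 x hx; exact ⟨Sum.inr j, rfl⟩
  have hw : ∀ i, ∃ w, FreeSemigroup.lift v w = a i := fun i =>
    exists_word_of_mem_closure v (Subsemigroup.closure_mono hsub (ha' i))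
  choose w hw using hw
  have ha0 : ∀ i, a i ≠ 0 := fun i hi => hne (MultilinearMap.map_coord_zero _ i hi)
  have hpar : ∀ i, wordParity (w i) = ε i := by
    intro i
    by_contra hcon
    have h1 : a i ∈ B.part (wordParity (w i)) := by rw [← hw i]; exact lift_mem_part B v hv _
    have h2 := ha i
    apply ha0 i
    rcases zmod2_cases (wordParity (w i)) with h3 | h3 <;>
      rcases zmod2_cases (ε i) with h4 | h4 <;> rw [h3] at h1 hcon <;> rw [h4] at h2 hcon
    · exact absurd rfl hcon
    · exact Submodule.disjoint_def.1 B.isCompl.disjoint _ h1 h2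
    · exact Submodule.disjoint_def.1 B.isCompl.disjoint _ h2 h1
    · exact absurd rfl hcon
  have := evalML_eq_zero_of_free h hB v hv ε w hpar
  rw [show (fun i => FreeSemigroup.lift v (w i)) = a from funext hw] at this
  exact hne this

/-- `f` has a nonzero value on a `V`-superalgebra in which all entries but those in `T` are
monomials in at most `r` even and `s` odd elements, with parities `ε`. -/
def Good (V : Set (AssocAlg F)) (f : MLPoly F) (T : Finset (Fin (f.n + 1))) (r s : ℕ)
    (ε : Fin (f.n + 1) → ZMod 2) : Prop :=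
  ∃ (B : SuperAlg F) (E O : Finset B.carrier) (a : Fin (f.n + 1) → B.carrier),
    B.envelope ∈ V ∧ (∀ x ∈ E, x ∈ B.part 0) ∧ (∀ x ∈ O, x ∈ B.part 1) ∧ E.card ≤ r ∧
    O.card ≤ s ∧ (∀ i, a i ∈ B.part (ε i)) ∧
    (∀ i, i ∉ T → a i ∈ Subsemigroup.closure ((E : Set B.carrier) ∪ O)) ∧
    evalML B.carrier (skoef f ε) a ≠ 0

theorem xi_envelope_mem {V : Set (AssocAlg F)} (hV : IsVariety V) {B : SuperAlg F}
    (hB : B.envelope ∈ V) : B.xi.envelope ∈ V := by
  obtain ⟨S, hS⟩ := hV
  rw [hS] at hB ⊢
  intro f hf
  rw [SuperAlg.satisfies_iff]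
  exact SuperAlg.SVanish.xi ((SuperAlg.satisfies_iff _ _).1 (hB f hf))

theorem Good.flip_one {V : Set (AssocAlg F)} (hV : IsVariety V) {f : MLPoly F}
    {T : Finset (Fin (f.n + 1))} {r s : ℕ} {ε : Fin (f.n + 1) → ZMod 2}
    (h : Good V f T r s ε) {k : Fin (f.n + 1)} (hk : k ∈ T) :
    Good V f T r s (Function.update ε k (ε k + 1)) := by
  classical
  obtain ⟨B, E, O, a, hB, hE, hO, hEr, hOs, ha, ha', hne⟩ := h
  refine ⟨B.xi, E.image B.xl, O.image B.xl,
    Function.update (fun i => B.xl (a i)) k (B.xr (a k)), xi_envelope_mem hV hB,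
    ?_, ?_, Finset.card_image_le.trans hEr, Finset.card_image_le.trans hOs, ?_, ?_, ?_⟩
  · intro x hx
    obtain ⟨y, hy, rfl⟩ := Finset.mem_image.1 hx
    exact B.xl_mem (hE y hy)
  · intro x hx
    obtain ⟨y, hy, rfl⟩ := Finset.mem_image.1 hx
    exact B.xl_mem (hO y hy)
  · intro i
    by_cases hik : i = k
    · subst hik
      rw [Function.update_self, Function.update_self]
      exact B.xr_mem (ha i)
    · rw [Function.update_of_ne hik, Function.update_of_ne hik]
      exact B.xl_mem (ha i)
  · intro i hi
    have hik : i ≠ k := fun h' => hi (h' ▸ hk)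
    rw [Function.update_of_ne hik, Finset.coe_image, Finset.coe_image, ← Set.image_union]
    have h2 := MulHom.map_mclosure (B.xl : B.carrier →ₙ* B.xi.carrier)
      ((E : Set B.carrier) ∪ O)
    have h1 : B.xl (a i) ∈ (Subsemigroup.closure ((E : Set B.carrier) ∪ O)).map
        (B.xl : B.carrier →ₙ* B.xi.carrier) := ⟨a i, ha' i hi, rfl⟩
    rw [h2] at h1
    exact h1
  · intro h0
    have h1 := B.xflip f ε k a (fun i _ => ha i)
    rw [h0] at h1
    have h3 : tailSign F ε k ≠ 0 := fun h' => by
      have := tailSign_mul_self (F := F) ε k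
      rw [h', zero_mul] at this
      exact zero_ne_one this
    have h4 := (smul_eq_zero.1 h1.symm).resolve_left h3
    rw [← map_zero B.xr] at h4
    exact hne (B.xr_injective h4)

theorem Good.flips {V : Set (AssocAlg F)} (hV : IsVariety V) {f : MLPoly F}
    {T : Finset (Fin (f.n + 1))} {r s : ℕ} {ε ε' : Fin (f.n + 1) → ZMod 2}
    (h : Good V f T r s ε) (hε : ∀ i, i ∉ T → ε i = ε' i) : Good V f T r s ε' := by
  classical
  suffices H : ∀ (D : Finset (Fin (f.n + 1))) (ε : Fin (f.n + 1) → ZMod 2), Good V f T r s ε →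
      (∀ i, i ∉ T → ε i = ε' i) → (∀ i, i ∉ D → ε i = ε' i) → Good V f T r s ε' from
    H Finset.univ ε h hε (fun i hi => absurd (Finset.mem_univ i) hi)
  intro D
  induction D using Finset.induction_on with
  | empty =>
    intro ε h _ h2
    have : ε = ε' := funext (fun i => h2 i (Finset.notMem_empty i))
    rw [← this]; exact h
  | insert k D hkD ih =>
    intro ε h h1 h2
    by_cases hk : ε k = ε' k
    · refine ih ε h h1 (fun i hi => ?_)
      by_cases hik : i = k
      · subst hik; exact hk
      · exact h2 i (fun h' => (Finset.mem_insert.1 h').elim hik hi)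
    · have hkT : k ∈ T := by
        by_contra hcon
        exact hk (h1 k hcon)
      refine ih _ (h.flip_one hV hkT) (fun i hi => ?_) (fun i hi => ?_)
      · have hik : i ≠ k := fun h' => hi (h' ▸ hkT)
        rw [Function.update_of_ne hik]; exact h1 i hi
      · by_cases hik : i = k
        · subst hik
          rw [Function.update_self]
          revert hk
          generalize ε i = x
          generalize ε' i = y
          revert x y
          decide
        · rw [Function.update_of_ne hik]
          exact h2 i (fun h' => (Finset.mem_insert.1 h').elim hik hi)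

theorem Good.not_SVanish_odd {V : Set (AssocAlg F)} (hV : IsVariety V) {f : MLPoly F}
    {T : Finset (Fin (f.n + 1))} {r s : ℕ} {ε : Fin (f.n + 1) → ZMod 2}
    (h : Good V f T r s ε) {s' : ℕ} (hs : s + T.card ≤ s') :
    ¬ (freeSuper V r s').SVanish f := by
  classical
  obtain ⟨B, E, O, a, hB, hE, hO, hEr, hOs, ha, ha', hne⟩ :=
    h.flips hV (ε' := fun i => if i ∈ T then 1 else ε i) (fun i hi => by rw [if_neg hi])
  refine not_SVanish_free hB E (O ∪ T.image a) hE ?_ hEr ?_ _ a ha ?_ hne
  · intro x hx
    rcases Finset.mem_union.1 hx with hx | hx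
    · exact hO x hx
    · obtain ⟨i, hi, rfl⟩ := Finset.mem_image.1 hx
      have := ha i
      simp only [if_pos hi] at this
      exact this
  · refine (Finset.card_union_le _ _).trans (le_trans ?_ hs)
    exact Nat.add_le_add hOs Finset.card_image_le
  · intro i
    by_cases hi : i ∈ T
    · refine Subsemigroup.subset_closure (Or.inr ?_)
      exact Finset.mem_coe.2 (Finset.mem_union_right _ (Finset.mem_image_of_mem a hi))
    · refine Subsemigroup.closure_mono ?_ (ha' i hi)
      refine Set.union_subset_union_right _ ?_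
      exact Finset.coe_subset.2 Finset.subset_union_left

theorem Good.not_SVanish_even {V : Set (AssocAlg F)} (hV : IsVariety V) {f : MLPoly F}
    {T : Finset (Fin (f.n + 1))} {r s : ℕ} {ε : Fin (f.n + 1) → ZMod 2}
    (h : Good V f T r s ε) {r' : ℕ} (hr : r + T.card ≤ r') :
    ¬ (freeSuper V r' s).SVanish f := by
  classical
  obtain ⟨B, E, O, a, hB, hE, hO, hEr, hOs, ha, ha', hne⟩ :=
    h.flips hV (ε' := fun i => if i ∈ T then 0 else ε i) (fun i hi => by rw [if_neg hi])
  refine not_SVanish_free hB (E ∪ T.image a) O ?_ hO ?_ hOs _ a ha ?_ hne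
  · intro x hx
    rcases Finset.mem_union.1 hx with hx | hx
    · exact hE x hx
    · obtain ⟨i, hi, rfl⟩ := Finset.mem_image.1 hx
      have := ha i
      simp only [if_pos hi] at this
      exact this
  · refine (Finset.card_union_le _ _).trans (le_trans ?_ hr)
    exact Nat.add_le_add hEr Finset.card_image_le
  · intro i
    by_cases hi : i ∈ T
    · refine Subsemigroup.subset_closure (Or.inl ?_)
      exact Finset.mem_coe.2 (Finset.mem_union_right _ (Finset.mem_image_of_mem a hi))
    · refine Subsemigroup.closure_mono ?_ (ha' i hi)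
      refine Set.union_subset_union_left _ ?_
      exact Finset.coe_subset.2 Finset.subset_union_left

end Pool.Agent.Helper29
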