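import Pool.Agent.Helper29.SuperGood

/-!
# From the structure of a finite-dimensional superalgebra to its basic superranks
-/

open scoped TensorProduct

universe u v

namespace Pool.Agent.Helper29

variable {F : Type u} [Field F]

/-- `A` is spanned over `L` by monomials in two even and one odd element, modulo a nilpotent
ideal. -/
def HasStruct (A : SuperAlg F) (L : Type v) [Field L] [Module L A.carrier] (N : ℕ) : Prop :=
  ∃ (E O : Finset A.carrier) (Φ : ℕ → Set A.carrier), (∀ x ∈ E, x ∈ A.part 0) ∧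
    (∀ x ∈ O, x ∈ A.part 1) ∧ E.card ≤ 2 ∧ O.card ≤ 1 ∧
    (∀ m m' x y, x ∈ Φ m → y ∈ Φ m' → x * y ∈ Φ (m + m')) ∧ (∀ x, x ∈ Φ 0) ∧
    (∀ m, N ≤ m → ∀ x ∈ Φ m, x = 0) ∧
    ∀ i, ∀ x ∈ A.part i, x ∈ Submodule.span L
      {y | y ∈ A.part i ∧ (y ∈ Subsemigroup.closure ((E : Set A.carrier) ∪ O) ∨ y ∈ Φ 1)}

theorem HasStruct.good {A : SuperAlg F} {L : Type v} [Field L] [Algebra F L]
    [Module L A.carrier] [IsScalarTower F L A.carrier] [IsScalarTower L A.carrier A.carrier]
    [SMulCommClass L A.carrier A.carrier] {N : ℕ} (hA : HasStruct A L N)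
    {V : Set (AssocAlg F)} (hAV : A.envelope ∈ V) {f : MLPoly F} (hf : ¬ A.SVanish f) :
    ∃ T ε, T.card ≤ N ∧ Good V f T 2 1 ε := by
  classical
  obtain ⟨E, O, Φ, hE, hO, hE2, hO1, hmul, h0, hN, hspan⟩ := hA
  unfold SuperAlg.SVanish at hf
  push Not at hf
  obtain ⟨ε, a, ha, hne⟩ := hf
  let m : MultilinearMap L (fun _ : Fin (f.n + 1) => A.carrier) A.carrier :=
    evalML A.carrier (fun σ => algebraMap F L (skoef f ε σ))
  have hm : ∀ a, m a = evalML A.carrier (skoef f ε) a := by
    intro a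
    rw [evalML_apply, evalML_apply]
    refine Finset.sum_congr rfl (fun σ _ => ?_)
    rw [algebraMap_smul]
  let P : Fin (f.n + 1) → Set A.carrier := fun i =>
    {y | y ∈ A.part (ε i) ∧ (y ∈ Subsemigroup.closure ((E : Set A.carrier) ∪ O) ∨ y ∈ Φ 1)}
  have h1 : ∃ b : Fin (f.n + 1) → A.carrier, (∀ i, b i ∈ P i) ∧ m b ≠ 0 := by
    by_contra hcon
    push Not at hcon
    refine hne ?_
    rw [← hm]
    exact MultilinearMap_eq_zero_of_span m P hcon a (fun i => hspan _ _ (ha i))
  obtain ⟨b, hb, hbm⟩ := h1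
  rw [hm] at hbm
  let T : Finset (Fin (f.n + 1)) := Finset.univ.filter
    (fun i => b i ∉ Subsemigroup.closure ((E : Set A.carrier) ∪ O))
  refine ⟨T, ε, ?_, A, E, O, b, hAV, hE, hO, hE2, hO1, fun i => (hb i).1, fun i hi => ?_, hbm⟩
  · by_contra hcon
    push Not at hcon
    apply hbm
    rw [evalML_apply]
    refine Finset.sum_eq_zero (fun σ _ => ?_)
    have h1 := nprod_mem_filtration Φ hmul (fun i => b (σ i))
      (fun i => if σ i ∈ T then 1 else 0) (fun i => by
        split_ifs with hi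
        · exact (hb (σ i)).2.resolve_left (Finset.mem_filter.1 hi).2
        · exact h0 _)
    have h2 : ∑ i, (if σ i ∈ T then 1 else 0) = T.card := by
      rw [Equiv.sum_comp σ (fun i => if i ∈ T then 1 else 0)]
      simp
    rw [h2] at h1
    rw [hN _ hcon.le _ h1, smul_zero]
  · by_contra hcon
    exact hi (Finset.mem_filter.2 ⟨Finset.mem_univ _, hcon⟩)

theorem generatedBy_of_forall {A : SuperAlg F} {r s : ℕ}
    (h : ∀ f, ¬ A.SVanish f → ¬ (freeSuper (var {A.envelope}) r s).SVanish f) :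
    GeneratedBy (var {A.envelope}) r s := by
  refine ⟨freeSuper (var {A.envelope}) r s, freeGen _ r s,
    isFreeSuper_freeSuper (isVariety_var _) r s, ?_⟩
  have hmem : (freeSuper (var {A.envelope}) r s).envelope ∈ var {A.envelope} :=
    freeSuper_mem (isVariety_var _) r s
  ext C
  rw [mem_var_singleton, mem_var_singleton]
  rw [mem_var_singleton] at hmem
  constructor
  · intro hC f hf
    rw [SuperAlg.satisfies_iff] at hf
    refine hC f ?_
    rw [SuperAlg.satisfies_iff]
    by_contra hcon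
    exact h f hcon hf
  · intro hC f hf
    exact hC f (hmem f hf)

theorem HasStruct.generatedBy {A : SuperAlg F} {L : Type v} [Field L] [Algebra F L]
    [Module L A.carrier] [IsScalarTower F L A.carrier] [IsScalarTower L A.carrier A.carrier]
    [SMulCommClass L A.carrier A.carrier] {N : ℕ} (hA : HasStruct A L N) :
    GeneratedBy (var {A.envelope}) 2 (1 + N) ∧ GeneratedBy (var {A.envelope}) (2 + N) 1 := by
  have hAV : A.envelope ∈ var {A.envelope} := by
    rw [mem_var_singleton]; exact fun _ h => h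
  constructor
  · refine generatedBy_of_forall (fun f hf => ?_)
    obtain ⟨T, ε, hT, hG⟩ := hA.good hAV hf
    exact hG.not_SVanish_odd (isVariety_var _) (Nat.add_le_add_left hT 1)
  · refine generatedBy_of_forall (fun f hf => ?_)
    obtain ⟨T, ε, hT, hG⟩ := hA.good hAV hf
    exact hG.not_SVanish_even (isVariety_var _) (Nat.add_le_add_left hT 2)

theorem exists_basicSuperrank {V : Set (AssocAlg F)} {r s : ℕ} (h : GeneratedBy V r s) :
    ∃ r' s', r' ≤ r ∧ s' ≤ s ∧ IsBasicSuperrank V r' s' := by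
  suffices H : ∀ m r s : ℕ, r + s = m → GeneratedBy V r s →
      ∃ r' s', r' ≤ r ∧ s' ≤ s ∧ IsBasicSuperrank V r' s' from H _ r s rfl h
  intro m
  induction m using Nat.strong_induction_on with
  | _ m ih =>
    intro r s hm h
    by_cases hb : IsBasicSuperrank V r s
    · exact ⟨r, s, le_rfl, le_rfl, hb⟩
    · unfold IsBasicSuperrank at hb
      push Not at hb
      obtain ⟨r', s', hne, hr, hs, hg⟩ := hb h
      have hlt : r' + s' < m := by
        rcases Nat.lt_or_ge r' r with h1 | h1
        · omega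
        · rcases Nat.lt_or_ge s' s with h2 | h2
          · omega
          · exact absurd (Prod.ext (le_antisymm hr h1) (le_antisymm hs h2)) hne
      obtain ⟨r'', s'', h1, h2, h3⟩ := ih _ hlt r' s' rfl hg
      exact ⟨r'', s'', h1.trans hr, h2.trans hs, h3⟩

/-- The form of the bounds: some basic superrank has `r ≤ 2` and some basic superrank has
`s ≤ 1`. -/
def HasBounds (V : Set (AssocAlg F)) : Prop :=
  (∃ p ∈ basicSpectrum V, p.1 ≤ 2) ∧ (∃ p ∈ basicSpectrum V, p.2 ≤ 1)

theorem HasStruct.bound {A : SuperAlg F} {L : Type v} [Field L] [Algebra F L]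
    [Module L A.carrier] [IsScalarTower F L A.carrier] [IsScalarTower L A.carrier A.carrier]
    [SMulCommClass L A.carrier A.carrier] {N : ℕ} (hA : HasStruct A L N) :
    HasBounds (var {A.envelope}) := by
  obtain ⟨h1, h2⟩ := hA.generatedBy
  constructor
  · obtain ⟨r', s', hr, hs, hb⟩ := exists_basicSuperrank h1
    exact ⟨(r', s'), hb, hr⟩
  · obtain ⟨r', s', hr, hs, hb⟩ := exists_basicSuperrank h2
    exact ⟨(r', s'), hb, hs⟩

end Pool.Agent.Helper29
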