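import Mathlib

/-!
# Finite-dimensional algebras with an involutive automorphism over an algebraically closed field

Modulo the radical, such an algebra is generated by two fixed elements and one skew element.
-/

universe u v

namespace Pool.Agent.Helper29

section semiprime

variable {K B : Type*} [Field K] [Ring B] [Algebra K B]

theorem eq_zero_of_nil (hJ : Ring.jacobson B = ⊥) (x : B) (h : ∀ y, IsNilpotent (y * x)) :
    x = 0 := by
  have h1 : x ∈ Ideal.jacobson (⊥ : Ideal B) := by
    rw [Ideal.mem_jacobson_iff]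
    intro y
    obtain ⟨u, hu⟩ := (h y).isUnit_one_add
    refine ⟨(↑u⁻¹ : B), ?_⟩
    have h2 : (↑u⁻¹ : B) * y * x + ↑u⁻¹ - 1 = 0 := by
      have h3 : (↑u⁻¹ : B) * (1 + y * x) = 1 := by rw [← hu]; exact u.inv_mul
      rw [mul_add, mul_one, ← mul_assoc] at h3
      rw [← h3]; abel
    rw [h2]
    exact Ideal.zero_mem _
  rw [Ideal.jacobson_bot, hJ] at h1
  exact h1

/-- The fixed part (`i = 0`) and the skew part (`i = 1`). -/
def IsPar (s : B →ₐ[K] B) (i : ZMod 2) (b : B) : Prop := s b = if i = 1 then -b else b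

variable {s : B →ₐ[K] B}

theorem zmod2_cases' (i : ZMod 2) : i = 0 ∨ i = 1 := by
  revert i; decide

theorem IsPar.mul {i j : ZMod 2} {a b : B} (ha : IsPar s i a) (hb : IsPar s j b) :
    IsPar s (i + j) (a * b) := by
  unfold IsPar at *
  rw [map_mul, ha, hb]
  rcases zmod2_cases' i with rfl | rfl <;> rcases zmod2_cases' j with rfl | rfl <;>
    simp [show (1 : ZMod 2) + 1 = 0 from rfl]

theorem IsPar.zero (i : ZMod 2) : IsPar s i 0 := by
  unfold IsPar; simp

theorem IsPar.add {i : ZMod 2} {a b : B} (ha : IsPar s i a) (hb : IsPar s i b) :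
    IsPar s i (a + b) := by
  unfold IsPar at *
  rw [map_add, ha, hb]
  split_ifs
  · abel
  · rfl

theorem IsPar.smul {i : ZMod 2} {a : B} (c : K) (ha : IsPar s i a) : IsPar s i (c • a) := by
  unfold IsPar at *
  rw [map_smul, ha]
  split_ifs
  · rw [smul_neg]
  · rfl

theorem IsPar.sum {ι : Type*} {i : ZMod 2} (S : Finset ι) (a : ι → B)
    (ha : ∀ p, IsPar s i (a p)) : IsPar s i (∑ p ∈ S, a p) := by
  classical
  induction S using Finset.induction_on with
  | empty => rw [Finset.sum_empty]; exact IsPar.zero i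
  | insert p S hp ih => rw [Finset.sum_insert hp]; exact (ha p).add ih

theorem isPar_zero_iff {b : B} : IsPar s 0 b ↔ s b = b := by
  unfold IsPar; simp

theorem isPar_one_iff {b : B} : IsPar s 1 b ↔ s b = -b := by
  unfold IsPar; simp

theorem exists_decomp (h2 : (2 : K) ≠ 0) (hs : ∀ b, s (s b) = b) (b : B) :
    ∃ b0 b1, IsPar s 0 b0 ∧ IsPar s 1 b1 ∧ b = b0 + b1 := by
  refine ⟨(2 : K)⁻¹ • (b + s b), (2 : K)⁻¹ • (b - s b), ?_, ?_, ?_⟩
  · rw [isPar_zero_iff, map_smul, map_add, hs, add_comm]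
  · rw [isPar_one_iff, map_smul, map_sub, hs, ← smul_neg, neg_sub]
  · rw [← smul_add, add_add_sub_cancel, ← two_smul K b, smul_smul, inv_mul_cancel₀ h2, one_smul]

theorem exists_decomp' (h2 : (2 : K) ≠ 0) (hs : ∀ b, s (s b) = b) (b : B) (j : ZMod 2) :
    ∃ b0 b1, IsPar s j b0 ∧ IsPar s (j + 1) b1 ∧ b = b0 + b1 := by
  obtain ⟨b0, b1, h0, h1, h⟩ := exists_decomp h2 hs b
  rcases zmod2_cases' j with rfl | rfl
  · exact ⟨b0, b1, h0, by simpa using h1, h⟩
  · exact ⟨b1, b0, h1, by simpa [show (1 : ZMod 2) + 1 = 0 from rfl] using h0,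
      by rw [h, add_comm]⟩

theorem IsPar.eq_zero (h2 : (2 : K) ≠ 0) {j : ZMod 2} {b : B} (h : IsPar s j b)
    (h' : IsPar s (j + 1) b) : b = 0 := by
  have h3 : b = -b := by
    rcases zmod2_cases' j with rfl | rfl
    · rw [zero_add, isPar_one_iff] at h'
      exact (isPar_zero_iff.1 h).symm.trans h'
    · rw [show (1 : ZMod 2) + 1 = 0 from rfl, isPar_zero_iff] at h'
      exact h'.symm.trans (isPar_one_iff.1 h)
  have h5 : (2 : K) • b = 0 := by
    rw [two_smul]; nth_rewrite 2 [h3]; exact add_neg_cancel b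
  exact (smul_eq_zero.1 h5).resolve_left h2

theorem IsPar.sub {i : ZMod 2} {a b : B} (ha : IsPar s i a) (hb : IsPar s i b) :
    IsPar s i (a - b) := by
  have := ha.add (hb.smul (-1 : K))
  rwa [neg_one_smul, ← sub_eq_add_neg] at this

/-- The fixed subalgebra. -/
abbrev fixedSub (s : B →ₐ[K] B) : Subalgebra K B := AlgHom.equalizer s (AlgHom.id K B)

theorem mem_fixedSub {b : B} : b ∈ fixedSub s ↔ s b = b := by
  rw [AlgHom.mem_equalizer]; rfl

theorem jacobson_fixed [Module.Finite K B] (h2 : (2 : K) ≠ 0) (hs : ∀ b, s (s b) = b)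
    (hJ : Ring.jacobson B = ⊥) : Ring.jacobson (fixedSub s) = ⊥ := by
  have : IsArtinianRing (fixedSub s) := IsArtinianRing.of_finite K _
  by_contra hI
  have hnil : ∃ n : ℕ, Ring.jacobson (fixedSub s) ^ n = ⊥ :=
    IsSemiprimaryRing.isNilpotent (R := fixedSub s)
  classical
  obtain ⟨n0, hn0, hmin⟩ : ∃ n0, Ring.jacobson (fixedSub s) ^ n0 = ⊥ ∧
      ∀ m < n0, Ring.jacobson (fixedSub s) ^ m ≠ ⊥ :=
    ⟨Nat.find hnil, Nat.find_spec hnil, fun m hm => Nat.find_min hnil hm⟩
  have h0 : n0 ≠ 0 := by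
    rintro rfl
    rw [Submodule.pow_zero, Ideal.one_eq_top] at hn0
    exact hI (le_bot_iff.1 (hn0 ▸ le_top))
  have h1 : n0 ≠ 1 := by
    rintro rfl
    rw [Submodule.pow_one] at hn0
    exact hI hn0
  set M := Ring.jacobson (fixedSub s) ^ (n0 - 1) with hM
  have hMne : M ≠ ⊥ := hmin _ (by omega)
  have hMM : ∀ x ∈ M, ∀ y ∈ M, x * y = 0 := by
    intro x hx y hy
    have h3 : x * y ∈ M * M := Ideal.mul_mem_mul hx hy
    rw [hM, ← Ideal.IsTwoSided.pow_add] at h3
    have h4 : x * y ∈ Ring.jacobson (fixedSub s) ^ n0 :=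
      Ideal.pow_le_pow_right (by omega) h3
    rw [hn0] at h4
    exact h4
  apply hMne
  rw [eq_bot_iff]
  intro x hx
  have hx0 : (x : B) = 0 := by
    refine eq_zero_of_nil hJ (x : B) (fun y => ⟨3, ?_⟩)
    obtain ⟨y0, y1, hy0, hy1, rfl⟩ := exists_decomp h2 hs y
    have hc : ∀ c : B, s c = c → (x : B) * c * x = 0 := by
      intro c hc
      have := hMM (x * ⟨c, mem_fixedSub.2 hc⟩) (Ideal.mul_mem_right _ _ hx) x hx
      exact congrArg (fun t : fixedSub s => (t : B)) this
    have hx1 : IsPar s 0 (x : B) := isPar_zero_iff.2 (mem_fixedSub.1 x.2)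
    have e0 : (x : B) * y0 * x = 0 := hc y0 (isPar_zero_iff.1 hy0)
    have e1 : (x : B) * (y1 * x * y1) * x = 0 := by
      refine hc _ (isPar_zero_iff.1 ?_)
      have := (hy1.mul hx1).mul hy1
      rwa [add_zero, show (1 : ZMod 2) + 1 = 0 from rfl] at this
    have e2 : (x : B) * (y0 + y1) * x = x * y1 * x := by
      rw [mul_add, add_mul, e0, zero_add]
    calc ((y0 + y1) * (x : B)) ^ 3
        = (y0 + y1) * ((x * (y0 + y1) * x) * (y0 + y1) * x) := by
          simp only [pow_succ, pow_zero, one_mul, mul_assoc]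
      _ = (y0 + y1) * ((x * y1 * x) * (y0 + y1) * x) := by rw [e2]
      _ = (y0 + y1) * (x * y1 * (x * (y0 + y1) * x)) := by simp only [mul_assoc]
      _ = (y0 + y1) * (x * (y1 * x * y1) * x) := by
          rw [e2]; simp only [mul_assoc]
      _ = 0 := by rw [e1, mul_zero]
  exact (Submodule.mem_bot _).2 (Subtype.ext hx0)

theorem semi (h2 : (2 : K) ≠ 0) (hs : ∀ b, s (s b) = b) (hJ : Ring.jacobson B = ⊥)
    {j : ZMod 2} {u e f : B} (hu : IsPar s j u) (heu : e * u = u) (huf : u * f = u)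
    (h : ∀ v, IsPar s j v → u * (f * v * e) = 0) : u = 0 := by
  refine eq_zero_of_nil hJ u (fun y => ⟨3, ?_⟩)
  obtain ⟨y0, y1, hy0, hy1, rfl⟩ := exists_decomp' h2 hs y j
  have key : ∀ v, u * v * u = u * (f * v * e) * u := by
    intro v
    calc u * v * u = (u * f) * v * (e * u) := by rw [huf, heu]
      _ = u * (f * v * e) * u := by simp only [mul_assoc]
  have hc : ∀ c, IsPar s j c → u * c * u = 0 := fun c hc => by rw [key, h c hc, zero_mul]
  have e1 : u * (y1 * u * y1) * u = 0 := by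
    refine hc _ ?_
    have := (hy1.mul hu).mul hy1
    have e : ∀ j : ZMod 2, j + 1 + j + (j + 1) = j := by decide
    rwa [e] at this
  have e2 : u * (y0 + y1) * u = u * y1 * u := by
    rw [mul_add, add_mul, hc y0 hy0, zero_add]
  calc ((y0 + y1) * u) ^ 3
      = (y0 + y1) * ((u * (y0 + y1) * u) * (y0 + y1) * u) := by
        simp only [pow_succ, pow_zero, one_mul, mul_assoc]
    _ = (y0 + y1) * ((u * y1 * u) * (y0 + y1) * u) := by rw [e2]
    _ = (y0 + y1) * (u * y1 * (u * (y0 + y1) * u)) := by simp only [mul_assoc]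
    _ = (y0 + y1) * (u * (y1 * u * y1) * u) := by
        rw [e2]; simp only [mul_assoc]
    _ = 0 := by rw [e1, mul_zero]

theorem dim_one (h2 : (2 : K) ≠ 0) (hs : ∀ b, s (s b) = b) (hJ : Ring.jacobson B = ⊥)
    {j : ZMod 2} {u u' e f : B} (hu : IsPar s j u) (heu : e * u = u) (huf : u * f = u)
    (hu' : IsPar s j u') (heu' : e * u' = u') (huf' : u' * f = u')
    (he : ∀ b, s b = b → ∃ c : K, e * b * e = c • e)
    (hf : ∀ b, s b = b → ∃ c : K, f * b * f = c • f) (hne : u ≠ 0) :
    ∃ c : K, u' = c • u := by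
  have h1 : ∃ v, IsPar s j v ∧ u * (f * v * e) ≠ 0 := by
    by_contra hcon
    push Not at hcon
    exact hne (semi h2 hs hJ hu heu huf hcon)
  obtain ⟨v, hv, hvne⟩ := h1
  have hjj : j + j = 0 := (by decide : ∀ j : ZMod 2, j + j = 0) j
  obtain ⟨l, hl⟩ := he (u * v) (isPar_zero_iff.1 (hjj ▸ hu.mul hv))
  obtain ⟨m, hm⟩ := hf (v * u') (isPar_zero_iff.1 (hjj ▸ hv.mul hu'))
  have e1 : u * (f * v * e) = l • e := by
    rw [← hl]
    calc u * (f * v * e) = (u * f) * v * e := by simp only [mul_assoc]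
      _ = (e * u) * v * e := by rw [huf, heu]
      _ = e * (u * v) * e := by simp only [mul_assoc]
  have hl0 : l ≠ 0 := by
    rintro rfl
    rw [zero_smul] at e1
    exact hvne e1
  have e2 : l • u' = m • u := by
    calc l • u' = (l • e) * u' := by rw [smul_mul_assoc, heu']
      _ = u * (f * v * e) * u' := by rw [e1]
      _ = u * (f * v * (e * u')) := by simp only [mul_assoc]
      _ = u * (f * (v * u') * f) := by
          rw [heu']
          congr 1
          rw [mul_assoc f (v * u') f, mul_assoc v u' f, huf', mul_assoc]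
      _ = m • u := by rw [hm, mul_smul_comm, huf]
  exact ⟨l⁻¹ * m, by rw [mul_smul, ← e2, smul_smul, inv_mul_cancel₀ hl0, one_smul]⟩

end semiprime

section idem

variable {K B : Type*} [Field K] [Ring B] [Algebra K B]

theorem exists_idem [IsAlgClosed K] [Module.Finite K B] [IsSemisimpleRing B] :
    ∃ (ι : Type) (_ : Fintype ι) (_ : DecidableEq ι) (e : ι → B),
      (∀ p, e p * e p = e p) ∧ (∀ p q, p ≠ q → e p * e q = 0) ∧ ∑ p, e p = 1 ∧
      ∀ p b, ∃ c : K, e p * b * e p = c • e p := by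
  obtain ⟨n, d, _, ⟨φ⟩⟩ := IsSemisimpleRing.exists_algEquiv_pi_matrix_of_isAlgClosed K B
  let E : (Σ i : Fin n, Fin (d i)) → Π i, Matrix (Fin (d i)) (Fin (d i)) K := fun p =>
    Pi.single p.1 (Matrix.single p.2 p.2 1)
  have hE1 : ∀ p b, E p * b * E p = b p.1 p.2 p.2 • E p := by
    intro p b
    funext i
    rw [Pi.mul_apply, Pi.mul_apply, Pi.smul_apply]
    by_cases hi : i = p.1
    · subst hi
      simp only [E, Pi.single_eq_same]
      rw [Matrix.single_mul_mul_single, one_mul, mul_one, Matrix.smul_single, smul_eq_mul, mul_one]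
    · simp only [E, Pi.single_eq_of_ne hi, mul_zero, smul_zero]
  have hE2 : ∀ p q, p ≠ q → E p * E q = 0 := by
    intro p q hpq
    funext i
    rw [Pi.mul_apply, Pi.zero_apply]
    by_cases hi : i = p.1
    · by_cases hi' : i = q.1
      · obtain ⟨p1, p2⟩ := p
        obtain ⟨q1, q2⟩ := q
        subst hi
        dsimp only at hi'
        subst hi'
        simp only [E, Pi.single_eq_same]
        refine Matrix.single_mul_single_of_ne _ _ _ _ ?_ _
        intro h
        exact hpq (by rw [h])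
      · simp only [E, Pi.single_eq_of_ne hi', mul_zero]
    · simp only [E, Pi.single_eq_of_ne hi, zero_mul]
  have hE3 : ∑ p, E p = 1 := by
    funext i
    rw [Finset.sum_apply, Fintype.sum_sigma, Finset.sum_eq_single i]
    · simp only [E, Pi.single_eq_same]
      rw [Pi.one_apply]
      ext k l
      rw [Matrix.sum_apply]
      simp only [Matrix.single_apply, Matrix.one_apply]
      by_cases hkl : k = l
      · subst hkl; simp
      · rw [if_neg hkl]
        refine Finset.sum_eq_zero (fun m _ => ?_)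
        rw [if_neg]
        rintro ⟨rfl, rfl⟩
        exact hkl rfl
    · intro j _ hj
      refine Finset.sum_eq_zero (fun k _ => ?_)
      simp only [E, Pi.single_eq_of_ne hj.symm]
    · intro h; exact absurd (Finset.mem_univ i) h
  refine ⟨_, inferInstance, inferInstance, fun p => φ.symm (E p), ?_, ?_, ?_, ?_⟩
  · intro p
    rw [← map_mul]
    congr 1
    have := hE1 p 1
    rw [mul_one] at this
    rw [this]
    simp
  · intro p q hpq
    rw [← map_mul, hE2 p q hpq, map_zero]
  · rw [← map_sum, hE3, map_one]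
  · intro p b
    refine ⟨(φ b) p.1 p.2 p.2, ?_⟩
    apply φ.injective
    rw [map_mul, map_mul, AlgEquiv.apply_symm_apply, hE1, map_smul, AlgEquiv.apply_symm_apply]

theorem aeval_mul_idem {y e : B} {c : K} (h : y * e = c • e) (f : Polynomial K) :
    Polynomial.aeval y f * e = f.eval c • e := by
  induction f using Polynomial.induction_on' with
  | add p q hp hq => rw [map_add, add_mul, hp, hq, Polynomial.eval_add, add_smul]
  | monomial n a =>
    rw [Polynomial.aeval_monomial, Polynomial.eval_monomial]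
    have hn : y ^ n * e = c ^ n • e := by
      induction n with
      | zero => rw [pow_zero, pow_zero, one_mul, one_smul]
      | succ n ih => rw [pow_succ, mul_assoc, h, mul_smul_comm, ih, smul_smul, pow_succ,
          mul_comm]
    rw [mul_assoc, hn, mul_smul, Algebra.smul_def a, mul_smul_comm]

theorem adjoin_semisimple [IsAlgClosed K] [Module.Finite K B] (s : B →ₐ[K] B)
    (h2 : (2 : K) ≠ 0) (hs : ∀ b, s (s b) = b) (hJ : Ring.jacobson B = ⊥) :
    ∃ y1 y2 z : B, IsPar s 0 y1 ∧ IsPar s 0 y2 ∧ IsPar s 1 z ∧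
      Algebra.adjoin K {y1, y2, z} = ⊤ := by
  classical
  have : IsArtinianRing (fixedSub s) := IsArtinianRing.of_finite K _
  have : IsSemisimpleRing (fixedSub s) :=
    IsArtinianRing.isSemisimpleRing_iff_jacobson.2 (jacobson_fixed h2 hs hJ)
  obtain ⟨ι, _, _, e', he1, he2, he3, he4⟩ := exists_idem (K := K) (B := fixedSub s)
  let e : ι → B := fun p => (e' p : B)
  have hepar : ∀ p, IsPar s 0 (e p) := fun p => isPar_zero_iff.2 (mem_fixedSub.1 (e' p).2)
  have hee : ∀ p, e p * e p = e p := fun p => congrArg Subtype.val (he1 p)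
  have heo : ∀ p q, p ≠ q → e p * e q = 0 := fun p q h => congrArg Subtype.val (he2 p q h)
  have hsum : ∑ p, e p = 1 := by
    have := congrArg (fun t : fixedSub s => (t : B)) he3
    simpa [e] using this
  have hcorner : ∀ p b, s b = b → ∃ c : K, e p * b * e p = c • e p := by
    intro p b hb
    obtain ⟨c, hc⟩ := he4 p ⟨b, mem_fixedSub.2 hb⟩
    exact ⟨c, congrArg Subtype.val hc⟩
  -- spanning elements of the Peirce components
  have hspan : ∀ (j : ZMod 2) (p q : ι), ∃ x, IsPar s j x ∧ e p * x = x ∧ x * e q = x ∧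
      ∀ y, IsPar s j y → e p * y = y → y * e q = y → ∃ c : K, y = c • x := by
    intro j p q
    by_cases h : ∃ u, IsPar s j u ∧ e p * u = u ∧ u * e q = u ∧ u ≠ 0
    · obtain ⟨u, hu, heu, huf, hne⟩ := h
      exact ⟨u, hu, heu, huf, fun y hy h1 h3 =>
        dim_one h2 hs hJ hu heu huf hy h1 h3 (hcorner p) (hcorner q) hne⟩
    · push Not at h
      exact ⟨0, IsPar.zero j, mul_zero _, zero_mul _, fun y hy h1 h3 => ⟨0, by
        rw [h y hy h1 h3, smul_zero]⟩⟩
  choose x hx hxl hxr hxs using hspan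
  obtain ⟨c, hc⟩ : ∃ c : ι → K, Function.Injective c := by
    have : Infinite K := IsAlgClosed.instInfinite
    exact ⟨_, ((Fintype.equivFin ι).toEmbedding.trans
      (Fin.valEmbedding.trans (Infinite.natEmbedding K))).injective⟩
  let y1 : B := ∑ p, c p • e p
  let y2 : B := ∑ p, ∑ q, x 0 p q
  let z : B := ∑ p, ∑ q, x 1 p q
  have hy1e : ∀ p, y1 * e p = c p • e p := by
    intro p
    simp only [y1]
    rw [Finset.sum_mul, Finset.sum_eq_single p]
    · rw [smul_mul_assoc, hee]
    · intro q _ hq; rw [smul_mul_assoc, heo q p hq, smul_zero]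
    · intro h; exact absurd (Finset.mem_univ p) h
  refine ⟨y1, y2, z, ?_, ?_, ?_, ?_⟩
  · exact IsPar.sum _ _ (fun p => (hepar p).smul _)
  · exact IsPar.sum _ _ (fun p => IsPar.sum _ _ (fun q => hx 0 p q))
  · exact IsPar.sum _ _ (fun p => IsPar.sum _ _ (fun q => hx 1 p q))
  set S := Algebra.adjoin K ({y1, y2, z} : Set B) with hS
  have hy1S : y1 ∈ S := Algebra.subset_adjoin (by simp)
  have hy2S : y2 ∈ S := Algebra.subset_adjoin (by simp)
  have hzS : z ∈ S := Algebra.subset_adjoin (by simp)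
  have heS : ∀ p, e p ∈ S := by
    intro p
    let f : Polynomial K := Lagrange.basis Finset.univ c p
    have h3 : Polynomial.aeval y1 f = e p := by
      calc Polynomial.aeval y1 f = Polynomial.aeval y1 f * ∑ q, e q := by rw [hsum, mul_one]
        _ = ∑ q, f.eval (c q) • e q := by
            rw [Finset.mul_sum]
            exact Finset.sum_congr rfl (fun q _ => aeval_mul_idem (hy1e q) f)
        _ = e p := by
            rw [Finset.sum_eq_single p]
            · rw [Lagrange.eval_basis_self (hc.injOn) (Finset.mem_univ p), one_smul]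
            · intro q _ hq
              rw [Lagrange.eval_basis_of_ne hq.symm (Finset.mem_univ q), zero_smul]
            · intro h; exact absurd (Finset.mem_univ p) h
    rw [← h3]
    exact Polynomial.aeval_mem_adjoin_singleton K y1 |> (Algebra.adjoin_mono (by simp) ·)
  have hpick : ∀ (j : ZMod 2) (p q : ι), e p * (∑ p', ∑ q', x j p' q') * e q = x j p q := by
    intro j p q
    rw [Finset.mul_sum, Finset.sum_eq_single p, Finset.mul_sum, Finset.sum_mul,
      Finset.sum_eq_single q]
    · rw [hxl, hxr]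
    · intro q' _ hq'
      rw [← hxr j p q', mul_assoc, mul_assoc, heo q' q hq', mul_zero, mul_zero]
    · intro h; exact absurd (Finset.mem_univ q) h
    · intro p' _ hp'
      rw [Finset.mul_sum]
      refine Finset.sum_eq_zero (fun q' _ => ?_)
      rw [← hxl j p' q', ← mul_assoc, heo p p' hp'.symm, zero_mul]
    · intro h; exact absurd (Finset.mem_univ p) h
  have hxS : ∀ j p q, x j p q ∈ S := by
    intro j p q
    rw [← hpick j p q]
    refine S.mul_mem (S.mul_mem (heS p) ?_) (heS q)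
    rcases zmod2_cases' j with rfl | rfl
    · exact hy2S
    · exact hzS
  rw [eq_top_iff]
  rintro b -
  have hhom : ∀ (j : ZMod 2) (b : B), IsPar s j b → b ∈ S := by
    intro j b hb
    have h3 : b = ∑ p, ∑ q, e p * b * e q := by
      calc b = (∑ p, e p) * b * (∑ q, e q) := by rw [hsum, one_mul, mul_one]
        _ = ∑ p, ∑ q, e p * b * e q := by
            rw [Finset.sum_mul, Finset.sum_mul]
            exact Finset.sum_congr rfl (fun p _ => by rw [Finset.mul_sum])
    rw [h3]
    refine S.sum_mem (fun p _ => S.sum_mem (fun q _ => ?_))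
    obtain ⟨k, hk⟩ := hxs j p q (e p * b * e q)
      (by have := ((hepar p).mul hb).mul (hepar q); rwa [zero_add, add_zero] at this)
      (by rw [← mul_assoc, ← mul_assoc, hee]) (by rw [mul_assoc, hee])
    rw [hk]
    exact S.smul_mem (hxS j p q) k
  obtain ⟨b0, b1, h0, h1, rfl⟩ := exists_decomp h2 hs b
  exact S.add_mem (hhom 0 b0 h0) (hhom 1 b1 h1)

end idem

section lift

variable {K C : Type*} [Field K] [Ring C] [Algebra K C]

/-- Structure theorem: a finite-dimensional algebra with an involutive automorphism over an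
algebraically closed field of characteristic not two is generated, modulo its (nilpotent)
radical, by two fixed elements and one skew element. -/
theorem structure_unital [IsAlgClosed K] [Module.Finite K C] (s : C →ₐ[K] C)
    (h2 : (2 : K) ≠ 0) (hs : ∀ b, s (s b) = b) :
    ∃ (J : Ideal C) (_ : J.IsTwoSided) (N : ℕ), J ^ N = ⊥ ∧ (∀ x ∈ J, s x ∈ J) ∧
      ∃ y1 y2 z : C, IsPar s 0 y1 ∧ IsPar s 0 y2 ∧ IsPar s 1 z ∧
        ∀ x, ∃ t ∈ Algebra.adjoin K ({y1, y2, z} : Set C), x - t ∈ J := by
  have : IsArtinianRing C := IsArtinianRing.of_finite K C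
  obtain ⟨N, hN⟩ := IsSemiprimaryRing.isNilpotent (R := C)
  have hsurj : Function.Surjective s := fun b => ⟨s b, hs b⟩
  have : RingHomSurjective (s : C →+* C) := ⟨hsurj⟩
  have hle : Ring.jacobson C ≤ Ideal.comap s (Ring.jacobson C) :=
    Ring.le_comap_jacobson (s : C →+* C)
  let sB : (C ⧸ Ring.jacobson C) →ₐ[K] (C ⧸ Ring.jacobson C) :=
    Ideal.quotientMapₐ (Ring.jacobson C) s hle
  have hsB : ∀ c : C, sB (Ideal.Quotient.mk _ c) = Ideal.Quotient.mk _ (s c) := fun c => rfl
  have hsB2 : ∀ b, sB (sB b) = b := by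
    intro b
    obtain ⟨c, rfl⟩ := Ideal.Quotient.mk_surjective b
    rw [hsB, hsB, hs]
  obtain ⟨y1, y2, z, hy1, hy2, hz, hgen⟩ :=
    adjoin_semisimple sB h2 hsB2 (Ring.jacobson_quotient_jacobson C)
  have hlift : ∀ (j : ZMod 2) (b : C ⧸ Ring.jacobson C), IsPar sB j b →
      ∃ c : C, IsPar s j c ∧ Ideal.Quotient.mk (Ring.jacobson C) c = b := by
    intro j b hb
    obtain ⟨c, rfl⟩ := Ideal.Quotient.mk_surjective b
    obtain ⟨c0, c1, h0, h1, rfl⟩ := exists_decomp' h2 hs c j
    have hm : ∀ (i : ZMod 2) (c : C), IsPar s i c →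
        IsPar sB i (Ideal.Quotient.mk (Ring.jacobson C) c) := by
      intro i c hc
      unfold IsPar at *
      rw [hsB, hc]
      split_ifs
      · exact map_neg _ _
      · rfl
    refine ⟨c0, h0, ?_⟩
    have h3 : Ideal.Quotient.mk (Ring.jacobson C) c1 = 0 := by
      refine IsPar.eq_zero h2 (j := j) ?_ (hm _ _ h1)
      have h4 : Ideal.Quotient.mk (Ring.jacobson C) c1 =
          Ideal.Quotient.mk (Ring.jacobson C) (c0 + c1) - Ideal.Quotient.mk _ c0 := by
        rw [map_add]; abel
      rw [h4]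
      exact hb.sub (hm _ _ h0)
    rw [map_add, h3, add_zero]
  obtain ⟨x1, hx1, rfl⟩ := hlift 0 y1 hy1
  obtain ⟨x2, hx2, rfl⟩ := hlift 0 y2 hy2
  obtain ⟨w, hw, rfl⟩ := hlift 1 z hz
  refine ⟨Ring.jacobson C, inferInstance, N, hN, hle, x1, x2, w, hx1, hx2, hw, fun x => ?_⟩
  have hx : Ideal.Quotient.mk (Ring.jacobson C) x ∈ Algebra.adjoin K
      ({Ideal.Quotient.mk (Ring.jacobson C) x1, Ideal.Quotient.mk (Ring.jacobson C) x2,
        Ideal.Quotient.mk (Ring.jacobson C) w} : Set (C ⧸ Ring.jacobson C)) := by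
    rw [hgen]; trivial
  have him : Algebra.adjoin K
      ({Ideal.Quotient.mk (Ring.jacobson C) x1, Ideal.Quotient.mk (Ring.jacobson C) x2,
        Ideal.Quotient.mk (Ring.jacobson C) w} : Set (C ⧸ Ring.jacobson C)) =
      (Algebra.adjoin K ({x1, x2, w} : Set C)).map (Ideal.Quotient.mkₐ K (Ring.jacobson C)) := by
    rw [AlgHom.map_adjoin, Set.image_insert_eq, Set.image_insert_eq, Set.image_singleton]
    rfl
  rw [him] at hx
  obtain ⟨t, ht, htx⟩ := hx
  exact ⟨t, ht, Ideal.Quotient.eq.1 htx.symm⟩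

end lift

end Pool.Agent.Helper29
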