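import Pool.Agent.Helper29.SuperMain
import Pool.Agent.Helper29.SuperStruct

/-!
# The structure of a finite-dimensional (non-unital) superalgebra
-/

open scoped TensorProduct

universe u v

namespace Pool.Agent.Helper29

variable {F : Type u} [Field F]

theorem SuperAlg.sig_sig (A : SuperAlg F) (a : A.carrier) : A.sig (A.sig a) = a := by
  induction a using A.induction_hom with
  | hadd a a' h h' => rw [map_add, map_add, h, h']
  | hhom i a ha => rw [A.sig_of_mem ha, map_smul, A.sig_of_mem ha, smul_smul, sgn_mul_self, one_smul]

section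

variable (A : SuperAlg F) (K : Type v) [Field K] [Module K A.carrier]

theorem SuperAlg.sig_smul (hpart : ∀ (i : ZMod 2) (c : K) (a : A.carrier), a ∈ A.part i →
    c • a ∈ A.part i) (c : K) (a : A.carrier) : A.sig (c • a) = c • A.sig a := by
  induction a using A.induction_hom with
  | hadd a a' h h' => rw [smul_add, map_add, map_add, smul_add, h, h']
  | hhom i a ha =>
    rw [A.sig_of_mem ha, A.sig_of_mem (hpart i c a ha)]
    unfold sgn
    split_ifs
    · rw [neg_one_smul, neg_one_smul, smul_neg]
    · rw [one_smul, one_smul]

/-- Twice the projection to the component `i`. -/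
noncomputable def SuperAlg.dproj (i : ZMod 2) : A.carrier →ₗ[F] A.carrier :=
  LinearMap.id + sgn F i • A.sig

theorem SuperAlg.dproj_apply (i : ZMod 2) (a : A.carrier) :
    A.dproj i a = a + sgn F i • A.sig a := rfl

theorem SuperAlg.dproj_of_mem {i : ZMod 2} {a : A.carrier} (ha : a ∈ A.part i) :
    A.dproj i a = a + a := by
  rw [A.dproj_apply, A.sig_of_mem ha, smul_smul, sgn_mul_self, one_smul]

theorem SuperAlg.dproj_of_mem_ne {i j : ZMod 2} (hij : j ≠ i) {a : A.carrier}
    (ha : a ∈ A.part j) : A.dproj i a = 0 := by
  rw [A.dproj_apply, A.sig_of_mem ha, smul_smul]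
  have : sgn F i * sgn F j = -1 := by
    rcases zmod2_cases i with rfl | rfl <;> rcases zmod2_cases j with rfl | rfl <;>
      simp_all [sgn]
  rw [this, neg_one_smul, add_neg_cancel]

theorem SuperAlg.dproj_mem (i : ZMod 2) (a : A.carrier) : A.dproj i a ∈ A.part i := by
  induction a using A.induction_hom with
  | hadd a a' h h' => rw [map_add]; exact Submodule.add_mem _ h h'
  | hhom j a ha =>
    by_cases hij : j = i
    · subst hij; rw [A.dproj_of_mem ha]; exact Submodule.add_mem _ ha ha
    · rw [A.dproj_of_mem_ne hij ha]; exact Submodule.zero_mem _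

end

theorem hasStruct_of_algClosed (A : SuperAlg F) (K : Type v) [Field K] [IsAlgClosed K]
    [Module K A.carrier] [IsScalarTower K A.carrier A.carrier]
    [SMulCommClass K A.carrier A.carrier] [Module.Finite K A.carrier] (h2 : (2 : K) ≠ 0)
    (hpart : ∀ (i : ZMod 2) (c : K) (a : A.carrier), a ∈ A.part i → c • a ∈ A.part i) :
    ∃ N, HasStruct A K N := by
  classical
  have : Module.Finite K (Unitization K A.carrier) :=
    Module.Finite.equiv (Unitization.linearEquiv K K A.carrier).symm
  let sigK : A.carrier →ₙₐ[K] A.carrier :=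
    { toFun := A.sig
      map_smul' := fun c a => A.sig_smul K hpart c a
      map_zero' := map_zero _
      map_add' := map_add _
      map_mul' := A.sig_mul }
  let s : Unitization K A.carrier →ₐ[K] Unitization K A.carrier :=
    Unitization.lift ((Unitization.inrNonUnitalAlgHom K A.carrier).comp sigK)
  have hs_inr : ∀ a : A.carrier, s (Unitization.inr a) = Unitization.inr (A.sig a) := by
    intro a
    have := Unitization.lift_symm_apply_apply s a
    rw [← this]
    simp only [s, Equiv.symm_apply_apply]
    rfl
  have hs_inl : ∀ c : K, s (Unitization.inl c) = Unitization.inl c := by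
    intro c
    have := s.commutes c
    rwa [Unitization.algebraMap_eq_inl] at this
  have hs_gen : ∀ x, s x = Unitization.inl x.fst + Unitization.inr (A.sig x.snd) := by
    intro x
    conv_lhs => rw [← Unitization.inl_fst_add_inr_snd_eq x, map_add, hs_inl, hs_inr]
  have hs : ∀ x, s (s x) = x := by
    intro x
    rw [hs_gen x, map_add, hs_inl, hs_inr, A.sig_sig, Unitization.inl_fst_add_inr_snd_eq]
  obtain ⟨J, hJ2, N, hJN, hsJ, y1, y2, z, hy1, hy2, hz, hgen⟩ := structure_unital s h2 hs
  -- the ideal lies in `A`
  have hJfst : ∀ x ∈ J, x.fst = 0 := by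
    intro x hx
    have h3 : x ^ N ∈ J ^ N := Ideal.pow_mem_pow hx N
    rw [hJN, Submodule.mem_bot] at h3
    have h4 := congrArg (Unitization.fstHom K A.carrier) h3
    rw [map_pow, map_zero] at h4
    exact eq_zero_of_pow_eq_zero h4
  have hmem : ∀ (i : ZMod 2) (x : Unitization K A.carrier), IsPar s i x → x.snd ∈ A.part i := by
    intro i x hx
    unfold IsPar at hx
    have h3 := congrArg (fun t => t.snd) (hs_gen x)
    rw [hx] at h3
    have h4 : A.dproj i x.snd = x.snd + x.snd := by
      rw [A.dproj_apply]
      congr 1
      unfold sgn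
      split_ifs at h3 ⊢ with hi
      · simp at h3
        rw [neg_one_smul, ← h3, neg_neg]
      · simp at h3
        rw [one_smul, ← h3]
    have h5 := A.dproj_mem i x.snd
    rw [h4, ← two_smul K] at h5
    have h6 := hpart i (2 : K)⁻¹ _ h5
    rwa [smul_smul, inv_mul_cancel₀ h2, one_smul] at h6
  let E : Finset A.carrier := {y1.snd, y2.snd}
  let O : Finset A.carrier := {z.snd}
  let Φ : ℕ → Set A.carrier := fun m => {a | (Unitization.inr a : Unitization K A.carrier) ∈ J ^ m}
  have hadj : ∀ t ∈ Algebra.adjoin K ({y1, y2, z} : Set (Unitization K A.carrier)),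
      t.snd ∈ Submodule.span K (Subsemigroup.closure ((E : Set A.carrier) ∪ O) :
        Set A.carrier) := by
    set G := Submodule.span K (Subsemigroup.closure ((E : Set A.carrier) ∪ O) : Set A.carrier)
      with hG
    have hgenG : ∀ a ∈ (E : Set A.carrier) ∪ O, a ∈ G := fun a ha =>
      Submodule.subset_span (Subsemigroup.subset_closure ha)
    have hmulG : ∀ a ∈ G, ∀ b ∈ G, a * b ∈ G := by
      intro a ha b hb
      induction ha using Submodule.span_induction with
      | mem a ha =>
        induction hb using Submodule.span_induction with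
        | mem b hb => exact Submodule.subset_span (Subsemigroup.mul_mem _ ha hb)
        | zero => rw [mul_zero]; exact Submodule.zero_mem _
        | add y z _ _ h1 h2 => rw [mul_add]; exact Submodule.add_mem _ h1 h2
        | smul c y _ h => rw [mul_smul_comm]; exact Submodule.smul_mem _ _ h
      | zero => rw [zero_mul]; exact Submodule.zero_mem _
      | add x z _ _ h1 h2 => rw [add_mul]; exact Submodule.add_mem _ h1 h2
      | smul c x _ h => rw [smul_mul_assoc]; exact Submodule.smul_mem _ _ h
    intro t ht
    induction ht using Algebra.adjoin_induction with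
    | mem x hx =>
      rcases hx with rfl | rfl | hx
      · exact hgenG _ (Or.inl (by simp [E]))
      · exact hgenG _ (Or.inl (by simp [E]))
      · rw [Set.mem_singleton_iff.1 hx]; exact hgenG _ (Or.inr (by simp [O]))
    | algebraMap c =>
      rw [Unitization.algebraMap_eq_inl, Unitization.snd_inl]
      exact Submodule.zero_mem _
    | add x y _ _ hx hy => rw [Unitization.snd_add]; exact Submodule.add_mem _ hx hy
    | mul x y _ _ hx hy =>
      rw [Unitization.snd_mul]
      exact Submodule.add_mem _ (Submodule.add_mem _ (Submodule.smul_mem _ _ hy)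
        (Submodule.smul_mem _ _ hx)) (hmulG _ hx _ hy)
  refine ⟨N, E, O, Φ, ?_, ?_, Finset.card_le_two, ?_, ?_, ?_, ?_, ?_⟩
  · intro x hx
    rcases Finset.mem_insert.1 hx with rfl | hx
    · exact hmem 0 _ hy1
    · rw [Finset.mem_singleton.1 hx]; exact hmem 0 _ hy2
  · intro x hx
    rw [Finset.mem_singleton.1 hx]; exact hmem 1 _ hz
  · rw [Finset.card_singleton]
  · intro m m' x y hx hy
    show (Unitization.inr (x * y) : Unitization K A.carrier) ∈ J ^ (m + m')
    rw [Unitization.inr_mul, Ideal.IsTwoSided.pow_add]
    exact Ideal.mul_mem_mul hx hy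
  · intro x
    show (Unitization.inr x : Unitization K A.carrier) ∈ J ^ 0
    rw [Submodule.pow_zero, Ideal.one_eq_top]; trivial
  · intro m hm x hx
    have h3 : (Unitization.inr x : Unitization K A.carrier) ∈ J ^ N :=
      Ideal.pow_le_pow_right hm hx
    rw [hJN, Submodule.mem_bot] at h3
    exact Unitization.inr_injective (h3.trans (Unitization.inr_zero K).symm)
  · intro i x hx
    obtain ⟨t, ht, hxt⟩ := hgen (Unitization.inr x)
    have ht0 : t.fst = 0 := by
      have h3 := hJfst _ hxt
      have h4 : (Unitization.fstHom K A.carrier) (Unitization.inr x - t) = 0 := h3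
      rw [map_sub] at h4
      have h5 : (Unitization.fstHom K A.carrier) (Unitization.inr x) = 0 := rfl
      rw [h5, zero_sub, neg_eq_zero] at h4
      exact h4
    have htr : t = Unitization.inr t.snd := by
      conv_lhs => rw [← Unitization.inl_fst_add_inr_snd_eq t, ht0, Unitization.inl_zero, zero_add]
    set j := x - t.snd with hj
    have hjJ : (Unitization.inr j : Unitization K A.carrier) ∈ J := by
      rw [hj, Unitization.inr_sub, ← htr]; exact hxt
    have hxe : x = t.snd + j := by rw [hj]; abel
    -- twice the projection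
    set W := Submodule.span K
      {y | y ∈ A.part i ∧ (y ∈ Subsemigroup.closure ((E : Set A.carrier) ∪ O) ∨ y ∈ Φ 1)} with hW
    have hE0 : ∀ y ∈ E, y ∈ A.part 0 := by
      intro x hx
      rcases Finset.mem_insert.1 hx with rfl | hx
      · exact hmem 0 _ hy1
      · rw [Finset.mem_singleton.1 hx]; exact hmem 0 _ hy2
    have hO1 : ∀ y ∈ O, y ∈ A.part 1 := by
      intro x hx
      rw [Finset.mem_singleton.1 hx]; exact hmem 1 _ hz
    have hhom : ∀ y ∈ Subsemigroup.closure ((E : Set A.carrier) ∪ O), ∃ k, y ∈ A.part k := by
      intro y hy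
      induction hy using Subsemigroup.closure_induction with
      | mem y hy =>
        rcases hy with hy | hy
        · exact ⟨0, hE0 y hy⟩
        · exact ⟨1, hO1 y hy⟩
      | mul y y' _ _ h h' =>
        obtain ⟨k, hk⟩ := h
        obtain ⟨k', hk'⟩ := h'
        exact ⟨k + k', A.mul_mem hk hk'⟩
    have h1 : ∀ y ∈ Submodule.span K (Subsemigroup.closure ((E : Set A.carrier) ∪ O) :
        Set A.carrier), A.dproj i y ∈ W := by
      intro y hy
      induction hy using Submodule.span_induction with
      | mem y hy =>
        obtain ⟨k, hk⟩ := hhom y hy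
        by_cases hki : k = i
        · subst hki
          rw [A.dproj_of_mem hk]
          have : y ∈ W := Submodule.subset_span ⟨hk, Or.inl hy⟩
          exact Submodule.add_mem _ this this
        · rw [A.dproj_of_mem_ne hki hk]; exact Submodule.zero_mem _
      | zero => rw [map_zero]; exact Submodule.zero_mem _
      | add y y' _ _ h h' => rw [map_add]; exact Submodule.add_mem _ h h'
      | smul c y _ h =>
        have h6 : sgn F i • (c • A.sig y) = c • (sgn F i • A.sig y) := by
          unfold sgn
          split_ifs
          · rw [neg_one_smul, neg_one_smul, smul_neg]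
          · rw [one_smul, one_smul]
        rw [A.dproj_apply, A.sig_smul K hpart, h6, ← smul_add]
        exact Submodule.smul_mem _ _ h
    have h3 : A.dproj i j ∈ W := by
      refine Submodule.subset_span ⟨A.dproj_mem i j, Or.inr ?_⟩
      show (Unitization.inr (A.dproj i j) : Unitization K A.carrier) ∈ J ^ 1
      rw [Submodule.pow_one, A.dproj_apply, Unitization.inr_add]
      refine Ideal.add_mem _ hjJ ?_
      have h4 := hsJ _ hjJ
      rw [hs_inr] at h4
      unfold sgn
      split_ifs
      · rw [neg_one_smul, Unitization.inr_neg]; exact Submodule.neg_mem _ h4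
      · rw [one_smul]; exact h4
    have h4 : x + x ∈ W := by
      have h6 : A.dproj i x = A.dproj i t.snd + A.dproj i j := by
        rw [← map_add, ← hxe]
      rw [← A.dproj_of_mem hx, h6]
      exact Submodule.add_mem _ (h1 _ (hadj t ht)) h3
    rw [← two_smul K] at h4
    have h5 := Submodule.smul_mem _ (2 : K)⁻¹ h4
    rwa [smul_smul, inv_mul_cancel₀ h2, one_smul] at h5

end Pool.Agent.Helper29
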