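import Pool.Agent.Helper29.SuperEval

/-!
# The superalgebra `A[ξ]` and change of parity
-/

open scoped TensorProduct

universe u v

namespace Pool.Agent.Helper29

section general

theorem evalML_map {A B : Type u} {R : Type v} [Field R] [NonUnitalRing A] [Module R A]
    [IsScalarTower R A A] [SMulCommClass R A A] [NonUnitalRing B] [Module R B]
    [IsScalarTower R B B] [SMulCommClass R B B] (φ : A →ₙₐ[R] B) {n : ℕ}
    (w : Equiv.Perm (Fin (n + 1)) → R) (a : Fin (n + 1) → A) :
    φ (evalML A w a) = evalML B w (fun i => φ (a i)) := by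
  rw [evalML_apply, evalML_apply, map_sum]
  refine Finset.sum_congr rfl (fun σ _ => ?_)
  rw [map_smul, nprod_map φ (fun s t => map_mul _ s t)]

theorem nprod_mem_filtration {A : Type u} [Mul A] (Φ : ℕ → Set A)
    (hmul : ∀ m m' x y, x ∈ Φ m → y ∈ Φ m' → x * y ∈ Φ (m + m')) :
    ∀ {n : ℕ} (b : Fin (n + 1) → A) (d : Fin (n + 1) → ℕ), (∀ i, b i ∈ Φ (d i)) →
      nprod b ∈ Φ (∑ i, d i)
  | 0, b, d, h => by simpa [nprod] using h 0
  | (n + 1), b, d, h => by
    rw [Fin.sum_univ_castSucc]
    exact hmul _ _ _ _ (nprod_mem_filtration Φ hmul _ _ (fun i => h i.castSucc)) (h _)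

end general

section sign

variable {F : Type u} [Field F]

variable (F) in
/-- The sign `(-1)^i`. -/
def sgn (i : ZMod 2) : F := if i = 1 then -1 else 1

variable (F) in
/-- The product of the signs of the entries to the right of position `k`. -/
def tailSign {n : ℕ} (ε : Fin (n + 1) → ZMod 2) (k : Fin (n + 1)) : F :=
  ∏ j, if k < j then sgn F (ε j) else 1

theorem sgn_mul_self (i : ZMod 2) : sgn F i * sgn F i = 1 := by
  unfold sgn; split_ifs <;> simp

theorem tailSign_mul_self {n : ℕ} (ε : Fin (n + 1) → ZMod 2) (k : Fin (n + 1)) :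
    tailSign F ε k * tailSign F ε k = 1 := by
  unfold tailSign
  rw [← Finset.prod_mul_distrib]
  refine Finset.prod_eq_one (fun j _ => ?_)
  split_ifs
  · exact sgn_mul_self _
  · exact one_mul _

theorem tailSign_last {n : ℕ} (ε : Fin (n + 1) → ZMod 2) : tailSign F ε (Fin.last n) = 1 := by
  unfold tailSign
  refine Finset.prod_eq_one (fun j _ => ?_)
  rw [if_neg (not_lt.2 (Fin.le_last j))]

theorem tailSign_castSucc {n : ℕ} (ε : Fin (n + 2) → ZMod 2) (k : Fin (n + 1)) :
    tailSign F ε k.castSucc = tailSign F (fun i => ε i.castSucc) k * sgn F (ε (Fin.last _)) := by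
  unfold tailSign
  rw [Fin.prod_univ_castSucc]
  congr 1
  rw [if_pos (Fin.castSucc_lt_last k)]

theorem tailSign_congr {n : ℕ} (ε ε' : Fin (n + 1) → ZMod 2) (k : Fin (n + 1))
    (h : ∀ j, j ≠ k → ε j = ε' j) : tailSign F ε k = tailSign F ε' k := by
  unfold tailSign
  refine Finset.prod_congr rfl (fun j _ => ?_)
  split_ifs with hj
  · rw [h j hj.ne']
  · rfl

/-- Moving one `ξ` to the right end of a product. -/
theorem nprod_update_R {A B : Type u} [Mul A] [NonUnitalRing B] [Module F B]
    [IsScalarTower F B B] [SMulCommClass F B B]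
    (P : ZMod 2 → A → Prop) (ι R : A → B) (hι : ∀ a b, ι (a * b) = ι a * ι b)
    (h1 : ∀ i a b, P i b → R a * ι b = sgn F i • R (a * b)) (h2 : ∀ a b, ι a * R b = R (a * b))
    {n : ℕ} (ε : Fin (n + 1) → ZMod 2) (a : Fin (n + 1) → A) (k : Fin (n + 1))
    (ha : ∀ i, i ≠ k → P (ε i) (a i)) :
    nprod (Function.update (fun i => ι (a i)) k (R (a k))) = tailSign F ε k • R (nprod a) := by
  induction n with
  | zero =>
    have : k = 0 := Fin.fin_one_eq_zero k
    subst this
    rw [show (0 : Fin (0 + 1)) = Fin.last 0 from rfl, tailSign_last, one_smul]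
    simp [nprod]
  | succ n ih =>
    induction k using Fin.lastCases with
    | last =>
      rw [nprod_update_last, tailSign_last, one_smul]
      rw [← nprod_map ι hι (fun i : Fin (n + 1) => a i.castSucc), h2]
      rfl
    | cast k =>
      rw [nprod_update_castSucc, tailSign_castSucc]
      rw [ih (fun i => ε i.castSucc) (fun i => a i.castSucc) k
        (fun i hi => ha _ (fun h => hi (Fin.castSucc_injective _ h)))]
      rw [smul_mul_assoc, h1 _ _ _ (ha (Fin.last _) (Fin.castSucc_lt_last k).ne'), mul_smul]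
      rfl

theorem update_comp_perm {α : Type*} {n : ℕ} (b : Fin (n + 1) → α) (k : Fin (n + 1)) (x : α)
    (σ : Equiv.Perm (Fin (n + 1))) :
    (fun i => Function.update b k x (σ i)) =
      Function.update (fun i => b (σ i)) (σ.symm k) x := by
  funext i
  by_cases h : i = σ.symm k
  · subst h; simp
  · rw [Function.update_of_ne h, Function.update_of_ne]
    intro h'
    exact h (by rw [← h', Equiv.symm_apply_apply])

theorem koszul_flip {n : ℕ} (ε : Fin (n + 1) → ZMod 2) (k : Fin (n + 1))
    (σ : Equiv.Perm (Fin (n + 1))) :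
    tailSign F (fun i => ε (σ i)) (σ.symm k) * koszul F ε σ =
      koszul F (Function.update ε k (ε k + 1)) σ * tailSign F ε k := by
  set η : Grassmann F := ExteriorAlgebra.ι F (Finsupp.single (n + 1) 1) with hη
  have hη1 : η ∈ gpart F 1 := ι_mem_gpart _
  let g := testG F ε
  have hg : ∀ i, g i ∈ gpart F (ε i) := testG_mem ε
  let R : Grassmann F → Grassmann F := fun x => x * η
  have h1 : ∀ (i : ZMod 2) (a b : Grassmann F), b ∈ gpart F i →
      R a * id b = sgn F i • R (a * b) := by
    intro i a b hb
    simp only [R, id]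
    rw [mul_assoc, gpart_comm hη1 hb, mul_smul_comm, ← mul_assoc]
    congr 1
    unfold sg sgn
    simp
  have h2 : ∀ a b : Grassmann F, id a * R b = R (a * b) := fun a b => (mul_assoc _ _ _).symm
  let g' : Fin (n + 1) → Grassmann F := Function.update (fun i => id (g i)) k (R (g k))
  have hg' : ∀ i, g' i ∈ gpart F (Function.update ε k (ε k + 1) i) := by
    intro i
    by_cases h : i = k
    · subst h
      simp only [g', Function.update_self]
      exact gpart_mul_mem (hg i) hη1
    · simp only [g', Function.update_of_ne h]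
      exact hg i
  have e1 := koszul_spec (Function.update ε k (ε k + 1)) σ g' hg'
  have e2 : nprod g' = tailSign F ε k • R (nprod g) :=
    nprod_update_R (fun i x => x ∈ gpart F i) id R (fun _ _ => rfl) h1 h2 ε g k
      (fun i _ => hg i)
  have e3 : nprod (fun i => g' (σ i)) =
      tailSign F (fun i => ε (σ i)) (σ.symm k) • R (nprod (fun i => g (σ i))) := by
    have h3 : (fun i => g' (σ i)) =
        Function.update (fun i => id (g (σ i))) (σ.symm k) (R (g (σ (σ.symm k)))) := by
      rw [Equiv.apply_symm_apply]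
      exact update_comp_perm _ _ _ _
    rw [h3]
    exact nprod_update_R (fun i x => x ∈ gpart F i) id R (fun _ _ => rfl) h1 h2
      (fun i => ε (σ i)) (fun i => g (σ i)) (σ.symm k) (fun i _ => hg _)
  rw [e3, e2, koszul_spec ε σ g hg] at e1
  have e4 : R (koszul F ε σ • nprod g) = koszul F ε σ • R (nprod g) := smul_mul_assoc _ _ _
  rw [e4, smul_smul, smul_smul] at e1
  have e5 : R (nprod g) ≠ 0 := testG_prod_ne_zero ε
  exact smul_left_injective F e5 e1

end sign

section sig

variable {F : Type u} [Field F]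

/-- The parity automorphism. -/
noncomputable def SuperAlg.sig (A : SuperAlg F) : A.carrier →ₗ[F] A.carrier :=
  (A.part 0).projection (A.part 1) A.isCompl - (A.part 1).projection (A.part 0) A.isCompl.symm

theorem SuperAlg.sig_of_mem (A : SuperAlg F) {i : ZMod 2} {a : A.carrier} (ha : a ∈ A.part i) :
    A.sig a = sgn F i • a := by
  rcases zmod2_cases i with rfl | rfl
  · rw [SuperAlg.sig, LinearMap.sub_apply, Submodule.projection_apply_of_mem_left _ ha,
      (Submodule.projection_apply_eq_zero_iff _).2 ha]
    simp [sgn]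
  · rw [SuperAlg.sig, LinearMap.sub_apply, Submodule.projection_apply_of_mem_left _ ha,
      (Submodule.projection_apply_eq_zero_iff _).2 ha]
    simp [sgn]

theorem SuperAlg.induction_hom (A : SuperAlg F) {P : A.carrier → Prop}
    (hadd : ∀ a b, P a → P b → P (a + b)) (hhom : ∀ i, ∀ a ∈ A.part i, P a) (a : A.carrier) :
    P a := by
  have : a ∈ A.part 0 ⊔ A.part 1 := by rw [A.isCompl.sup_eq_top]; trivial
  obtain ⟨x, hx, y, hy, rfl⟩ := Submodule.mem_sup.1 this
  exact hadd _ _ (hhom _ _ hx) (hhom _ _ hy)

theorem SuperAlg.sig_mul (A : SuperAlg F) (a b : A.carrier) : A.sig (a * b) = A.sig a * A.sig b := by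
  induction a using A.induction_hom with
  | hadd a a' h h' => rw [add_mul, map_add, map_add, add_mul, h, h']
  | hhom i a ha =>
    induction b using A.induction_hom with
    | hadd b b' h h' => rw [mul_add, map_add, map_add, mul_add, h, h']
    | hhom j b hb =>
      rw [A.sig_of_mem ha, A.sig_of_mem hb, A.sig_of_mem (A.mul_mem ha hb), smul_mul_smul_comm]
      congr 1
      rcases zmod2_cases i with rfl | rfl <;> rcases zmod2_cases j with rfl | rfl <;>
        simp [sgn, show (1 : ZMod 2) + 1 = 0 from rfl]

theorem SuperAlg.sig_mem (A : SuperAlg F) {i : ZMod 2} {a : A.carrier} (ha : a ∈ A.part i) :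
    A.sig a ∈ A.part i := by
  rw [A.sig_of_mem ha]; exact Submodule.smul_mem _ _ ha

end sig

section xi

variable {F : Type u} [Field F]

/-- The underlying type of `A[ξ]`; the pair `(a, b)` stands for `a + b ξ`. -/
structure Xi (A : SuperAlg F) : Type u where
  /-- the coefficient of `1` -/
  fst : A.carrier
  /-- the coefficient of `ξ` -/
  snd : A.carrier

namespace Xi

variable {A : SuperAlg F}

theorem ext' {x y : Xi A} (h1 : x.fst = y.fst) (h2 : x.snd = y.snd) : x = y := by
  cases x; cases y; simp_all

/-- The identification with pairs. -/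
def toProd : Xi A ≃ A.carrier × A.carrier where
  toFun x := (x.fst, x.snd)
  invFun p := ⟨p.1, p.2⟩
  left_inv _ := rfl
  right_inv _ := rfl

instance : AddCommGroup (Xi A) := toProd.addCommGroup
instance : Module F (Xi A) := toProd.module F

/-- Linear version of `toProd`. -/
def toProdL : Xi A ≃ₗ[F] A.carrier × A.carrier := toProd.linearEquiv F

@[simp] theorem fst_add (x y : Xi A) : (x + y).fst = x.fst + y.fst := rfl
@[simp] theorem snd_add (x y : Xi A) : (x + y).snd = x.snd + y.snd := rfl
@[simp] theorem fst_zero : (0 : Xi A).fst = 0 := rfl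
@[simp] theorem snd_zero : (0 : Xi A).snd = 0 := rfl
@[simp] theorem fst_smul (c : F) (x : Xi A) : (c • x).fst = c • x.fst := rfl
@[simp] theorem snd_smul (c : F) (x : Xi A) : (c • x).snd = c • x.snd := rfl

noncomputable instance : Mul (Xi A) :=
  ⟨fun x y => ⟨x.fst * y.fst, x.fst * y.snd + x.snd * A.sig y.fst⟩⟩

@[simp] theorem fst_mul (x y : Xi A) : (x * y).fst = x.fst * y.fst := rfl
@[simp] theorem snd_mul (x y : Xi A) :
    (x * y).snd = x.fst * y.snd + x.snd * A.sig y.fst := rfl

noncomputable instance : NonUnitalRing (Xi A) where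
  left_distrib x y z := by
    apply ext'
    · simp [mul_add]
    · simp [mul_add]; abel
  right_distrib x y z := by
    apply ext'
    · simp [add_mul]
    · simp [add_mul]; abel
  zero_mul x := by apply ext' <;> simp
  mul_zero x := by apply ext' <;> simp
  mul_assoc x y z := by
    apply ext'
    · simp [mul_assoc]
    · simp [mul_add, add_mul, mul_assoc, A.sig_mul, add_assoc]

instance : IsScalarTower F (Xi A) (Xi A) where
  smul_assoc c x y := by
    apply ext'
    · simp [smul_mul_assoc]
    · simp [smul_mul_assoc]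

instance : SMulCommClass F (Xi A) (Xi A) where
  smul_comm c x y := by
    apply ext'
    · simp [mul_smul_comm]
    · simp [mul_smul_comm]

end Xi

/-- The superalgebra `A[ξ]`, where `ξ` is an odd supercentral element with `ξ² = 0`. -/
noncomputable def SuperAlg.xi (A : SuperAlg F) : SuperAlg F where
  carrier := Xi A
  smul_mul := fun c a b => smul_mul_assoc c a b
  mul_smul := fun c a b => mul_smul_comm c a b
  part i := ((A.part i).prod (A.part (i + 1))).comap (Xi.toProdL : Xi A ≃ₗ[F] _).toLinearMap
  isCompl := by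
    refine IsCompl.of_le ?_ ?_
    · rintro x ⟨⟨h0, h0'⟩, ⟨h1, h1'⟩⟩
      have e1 : x.fst = 0 := Submodule.disjoint_def.1 A.isCompl.disjoint _ h0 h1
      have e2 : x.snd = 0 := Submodule.disjoint_def.1 A.isCompl.disjoint _ h1' h0'
      exact Xi.ext' e1 e2
    · rintro x -
      have h1 : x.fst ∈ A.part 0 ⊔ A.part 1 := by rw [A.isCompl.sup_eq_top]; trivial
      have h2 : x.snd ∈ A.part 0 ⊔ A.part 1 := by rw [A.isCompl.sup_eq_top]; trivial
      obtain ⟨a, ha, b, hb, hab⟩ := Submodule.mem_sup.1 h1
      obtain ⟨c, hc, d, hd, hcd⟩ := Submodule.mem_sup.1 h2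
      have hx : x = (⟨a, d⟩ : Xi A) + ⟨b, c⟩ := Xi.ext' hab.symm (by
        rw [← hcd, add_comm]; rfl)
      rw [hx]
      exact Submodule.add_mem_sup ⟨ha, hd⟩ ⟨hb, hc⟩
  mul_mem := by
    rintro i j x y ⟨hx1, hx2⟩ ⟨hy1, hy2⟩
    refine ⟨A.mul_mem hx1 hy1, ?_⟩
    refine Submodule.add_mem _ ?_ ?_
    · have := A.mul_mem hx1 hy2
      rwa [← add_assoc] at this
    · have := A.mul_mem hx2 (A.sig_mem hy1)
      rwa [add_right_comm] at this

namespace Xi

variable {A : SuperAlg F}

/-- The inclusion `A → A[ξ]`. -/
noncomputable def inl : A.carrier →ₙₐ[F] Xi A where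
  toFun a := ⟨a, 0⟩
  map_smul' c _ := ext' rfl (smul_zero c).symm
  map_zero' := rfl
  map_add' _ _ := ext' rfl (add_zero (0 : A.carrier)).symm
  map_mul' _ _ := ext' rfl (by simp)

/-- The map `b ↦ b ξ`. -/
noncomputable def inr : A.carrier →ₗ[F] Xi A where
  toFun b := ⟨0, b⟩
  map_smul' c _ := ext' (smul_zero c).symm rfl
  map_add' _ _ := ext' (add_zero (0 : A.carrier)).symm rfl

@[simp] theorem fst_inl (a : A.carrier) : (inl a : Xi A).fst = a := rfl
@[simp] theorem snd_inl (a : A.carrier) : (inl a : Xi A).snd = 0 := rfl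
@[simp] theorem fst_inr (a : A.carrier) : (inr a : Xi A).fst = 0 := rfl
@[simp] theorem snd_inr (a : A.carrier) : (inr a : Xi A).snd = a := rfl

theorem inl_injective : Function.Injective (inl : A.carrier → Xi A) := fun _ _ h =>
  congrArg Xi.fst h

theorem inr_injective : Function.Injective (inr : A.carrier → Xi A) := fun _ _ h =>
  congrArg Xi.snd h

theorem inl_mem {i : ZMod 2} {a : A.carrier} (ha : a ∈ A.part i) : inl a ∈ A.xi.part i :=
  ⟨ha, Submodule.zero_mem _⟩

theorem inr_mem {i : ZMod 2} {a : A.carrier} (ha : a ∈ A.part i) : inr a ∈ A.xi.part (i + 1) := by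
  refine ⟨Submodule.zero_mem _, ?_⟩
  rw [add_assoc, show (1 : ZMod 2) + 1 = 0 from rfl, add_zero]
  exact ha

theorem inr_mul_inl {i : ZMod 2} (a : A.carrier) {b : A.carrier} (hb : b ∈ A.part i) :
    (inr a * inl b : Xi A) = sgn F i • inr (a * b) := by
  apply ext'
  · simp
  · simp [A.sig_of_mem hb, mul_smul_comm]

theorem inl_mul_inr (a b : A.carrier) : (inl a * inr b : Xi A) = inr (a * b) := by
  apply ext'
  · simp
  · simp

theorem flip (f : MLPoly F) (ε : Fin (f.n + 1) → ZMod 2) (k : Fin (f.n + 1))
    (a : Fin (f.n + 1) → A.carrier) (ha : ∀ i, i ≠ k → a i ∈ A.part (ε i)) :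
    evalML (Xi A) (skoef f (Function.update ε k (ε k + 1)))
      (Function.update (fun i => inl (a i)) k (inr (a k))) =
    tailSign F ε k • inr (evalML A.carrier (skoef f ε) a) := by
  rw [evalML_apply, evalML_apply, map_sum, Finset.smul_sum]
  refine Finset.sum_congr rfl (fun σ _ => ?_)
  have e1 : (fun i => Function.update (fun i => (inl (a i) : Xi A)) k (inr (a k)) (σ i)) =
      Function.update (fun i => (inl (a (σ i)) : Xi A)) (σ.symm k)
        (inr (a (σ (σ.symm k)))) := by
    rw [Equiv.apply_symm_apply]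
    exact update_comp_perm _ _ _ _
  rw [e1, nprod_update_R (F := F) (fun i x => x ∈ A.part i) (inl : A.carrier → Xi A) inr
    (fun a b => map_mul inl a b) (fun i a b hb => inr_mul_inl a hb) inl_mul_inr
    (fun i => ε (σ i)) (fun i => a (σ i)) (σ.symm k)
    (fun i hi => ha _ (fun h => hi (by rw [← h, Equiv.symm_apply_apply])))]
  rw [map_smul, smul_smul, smul_smul]
  congr 1
  unfold skoef
  have h := koszul_flip (F := F) ε k σ
  have h1 := tailSign_mul_self (F := F) ε k
  have h2 := tailSign_mul_self (F := F) (fun i => ε (σ i)) (σ.symm k)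
  set T := tailSign F ε k
  set T' := tailSign F (fun i => ε (σ i)) (σ.symm k)
  set K := koszul F ε σ
  set K' := koszul F (Function.update ε k (ε k + 1)) σ
  have h3 : K' = T' * K * T := by rw [h, mul_assoc, h1, mul_one]
  rw [h3]
  linear_combination f.coeff σ * T * K * h2

end Xi

theorem SuperAlg.SVanish.xi_aux {A : SuperAlg F} {f : MLPoly F} (h : A.SVanish f)
    (ε : Fin (f.n + 1) → ZMod 2) (b : Fin (f.n + 1) → Xi A) (hb : ∀ i, b i ∈ A.xi.part (ε i)) :
    evalML (Xi A) (skoef f ε) b = 0 := by
  let P : Fin (f.n + 1) → Set (Xi A) := fun i =>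
    {x | (∃ a ∈ A.part (ε i), x = Xi.inl a) ∨ (∃ a ∈ A.part (ε i + 1), x = Xi.inr a)}
  refine MultilinearMap_eq_zero_of_span _ P (fun t ht => ?_) b (fun i => ?_)
  · -- the main computation
    classical
    let T : Finset (Fin (f.n + 1)) :=
      Finset.univ.filter (fun i => ∃ a ∈ A.part (ε i + 1), t i = Xi.inr a)
    rcases Nat.lt_or_ge 1 T.card with hT | hT
    · -- at least two factors in the square-zero ideal
      rw [evalML_apply]
      refine Finset.sum_eq_zero (fun σ _ => ?_)
      let Φ : ℕ → Set (Xi A) := fun m => {x | (1 ≤ m → x.fst = 0) ∧ (2 ≤ m → x = 0)}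
      have hΦ : ∀ m m' x y, x ∈ Φ m → y ∈ Φ m' → x * y ∈ Φ (m + m') := by
        rintro m m' x y ⟨hx1, hx2⟩ ⟨hy1, hy2⟩
        refine ⟨fun hm => ?_, fun hm => ?_⟩
        · rcases Nat.eq_zero_or_pos m with rfl | h0
          · rw [Xi.fst_mul, hy1 (by omega), mul_zero]
          · rw [Xi.fst_mul, hx1 h0, zero_mul]
        · rcases Nat.lt_or_ge 1 m with h0 | h0
          · rw [hx2 h0, zero_mul]
          rcases Nat.lt_or_ge 1 m' with h0' | h0'
          · rw [hy2 h0', mul_zero]
          have hm1 : m = 1 := by omega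
          have hm1' : m' = 1 := by omega
          apply Xi.ext'
          · rw [Xi.fst_mul, hx1 hm1.ge, zero_mul]; rfl
          · rw [Xi.snd_mul, hx1 hm1.ge, hy1 hm1'.ge, zero_mul, map_zero, mul_zero, add_zero]; rfl
      have h1 := nprod_mem_filtration Φ hΦ (fun i => t (σ i))
        (fun i => if σ i ∈ T then 1 else 0) (fun i => by
          split_ifs with hi
          · obtain ⟨a, -, ha⟩ := (Finset.mem_filter.1 hi).2
            exact ⟨fun _ => by rw [ha]; rfl, fun h => absurd h (by norm_num)⟩
          · exact ⟨fun h => absurd h (by norm_num), fun h => absurd h (by norm_num)⟩)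
      have h2 : ∑ i, (if σ i ∈ T then 1 else 0) = T.card := by
        rw [Equiv.sum_comp σ (fun i => if i ∈ T then 1 else 0)]
        simp
      rw [h2] at h1
      rw [h1.2 hT, smul_zero]
    · rcases Nat.eq_zero_or_pos T.card with h0 | h0
      · -- no factor in the ideal
        have hno : ∀ i, ∃ a ∈ A.part (ε i), t i = Xi.inl a := fun i => by
          rcases ht i with h' | h'
          · exact h'
          · have : i ∈ T := Finset.mem_filter.2 ⟨Finset.mem_univ _, h'⟩
            rw [Finset.card_eq_zero.1 h0] at this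
            exact absurd this (Finset.notMem_empty _)
        choose a ha hta using hno
        have : t = fun i => Xi.inl (a i) := funext hta
        rw [this]
        have h3 := evalML_map (Xi.inl : A.carrier →ₙₐ[F] Xi A) (skoef f ε) a
        rw [h ε a ha, map_zero] at h3
        exact h3.symm
      · -- exactly one factor in the ideal
        obtain ⟨k, hk⟩ := Finset.card_eq_one.1 (le_antisymm hT h0)
        have hkT : k ∈ T := by rw [hk]; exact Finset.mem_singleton_self k
        obtain ⟨c, hc, htc⟩ := (Finset.mem_filter.1 hkT).2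
        have hno : ∀ i, ∃ a, (i ≠ k → a ∈ A.part (ε i) ∧ t i = Xi.inl a) := fun i => by
          by_cases hik : i = k
          · exact ⟨0, fun h' => absurd hik h'⟩
          rcases ht i with ⟨a, ha⟩ | h'
          · exact ⟨a, fun _ => ha⟩
          · have : i ∈ T := Finset.mem_filter.2 ⟨Finset.mem_univ _, h'⟩
            rw [hk, Finset.mem_singleton] at this
            exact absurd this hik
        choose a ha using hno
        let a' := Function.update a k c
        let ε' := Function.update ε k (ε k + 1)
        have ha' : ∀ i, a' i ∈ A.part (ε' i) := fun i => by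
          by_cases hik : i = k
          · subst hik; simp only [a', ε', Function.update_self]; exact hc
          · simp only [a', ε', Function.update_of_ne hik]; exact (ha i hik).1
        have hε : Function.update ε' k (ε' k + 1) = ε := by
          funext i
          by_cases hik : i = k
          · subst hik
            simp only [ε', Function.update_self]
            rw [add_assoc, show (1 : ZMod 2) + 1 = 0 from rfl, add_zero]
          · simp only [ε', Function.update_of_ne hik]
        have ht' : t = Function.update (fun i => (Xi.inl (a' i) : Xi A)) k (Xi.inr (a' k)) := by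
          funext i
          by_cases hik : i = k
          · subst hik; simp only [a', Function.update_self]; exact htc
          · simp only [a', Function.update_of_ne hik]; exact (ha i hik).2
        have h4 := Xi.flip f ε' k a' (fun i _ => ha' i)
        rw [hε, ← ht', h ε' a' ha', map_zero, smul_zero] at h4
        exact h4
  · obtain ⟨h1, h2⟩ := hb i
    have : b i = (Xi.inl (b i).fst : Xi A) + Xi.inr (b i).snd := by
      apply Xi.ext'
      · show (b i).fst = (b i).fst + 0; rw [add_zero]
      · show (b i).snd = 0 + (b i).snd; rw [zero_add]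
    rw [this]
    exact Submodule.add_mem _ (Submodule.subset_span (Or.inl ⟨_, h1, rfl⟩))
      (Submodule.subset_span (Or.inr ⟨_, h2, rfl⟩))

theorem SuperAlg.SVanish.xi {A : SuperAlg F} {f : MLPoly F} (h : A.SVanish f) :
    A.xi.SVanish f :=
  fun ε b hb => h.xi_aux ε b hb

/-- The inclusion `A → A[ξ]`. -/
noncomputable def SuperAlg.xl (A : SuperAlg F) : A.carrier →ₙₐ[F] A.xi.carrier :=
  (Xi.inl : A.carrier →ₙₐ[F] Xi A)

/-- The map `A → A[ξ]`, `b ↦ b ξ`. -/
noncomputable def SuperAlg.xr (A : SuperAlg F) : A.carrier →ₗ[F] A.xi.carrier :=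
  (Xi.inr : A.carrier →ₗ[F] Xi A)

theorem SuperAlg.xl_mem (A : SuperAlg F) {i : ZMod 2} {a : A.carrier} (ha : a ∈ A.part i) :
    A.xl a ∈ A.xi.part i := Xi.inl_mem ha

theorem SuperAlg.xr_mem (A : SuperAlg F) {i : ZMod 2} {a : A.carrier} (ha : a ∈ A.part i) :
    A.xr a ∈ A.xi.part (i + 1) := Xi.inr_mem ha

theorem SuperAlg.xr_injective (A : SuperAlg F) : Function.Injective A.xr := Xi.inr_injective

theorem SuperAlg.xflip (A : SuperAlg F) (f : MLPoly F) (ε : Fin (f.n + 1) → ZMod 2)
    (k : Fin (f.n + 1)) (a : Fin (f.n + 1) → A.carrier) (ha : ∀ i, i ≠ k → a i ∈ A.part (ε i)) :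
    evalML A.xi.carrier (skoef f (Function.update ε k (ε k + 1)))
      (Function.update (fun i => A.xl (a i)) k (A.xr (a k))) =
    tailSign F ε k • A.xr (evalML A.carrier (skoef f ε) a) := Xi.flip f ε k a ha

end xi

end Pool.Agent.Helper29
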